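import Pool.Agent.Run7.h341.NLen.Iface

/-!
# The critical zeros of a solution of `Δu + q u = 0` in the plane are countable (piece E6)

`Dl l u` is the iterated directional derivative of `u` along the list `l`. At a zero of order `n + 2` the
`(n + 2)`-th derivative is a symmetric form with vanishing trace, hence it has no kernel, hence the
`(n + 1)`-th derivative has an isolated zero there.
-/

set_option autoImplicit false
open MeasureTheory Filter Topology Complex Metric Set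
open scoped ContDiff

namespace Run7.h159.E6

open Pool.Agent.Q73.NL Pool.Agent.Q73.AD

noncomputable section

/-- directional derivative -/
def D1 (v : ℂ) (f : ℂ → ℝ) (z : ℂ) : ℝ := fderiv ℝ f z v

/-- iterated directional derivative -/
def Dl : List ℂ → (ℂ → ℝ) → ℂ → ℝ
  | [], u => u
  | v :: l, u => D1 v (Dl l u)

variable {Ω : Set ℂ} {u f g q : ℂ → ℝ} {z : ℂ}

theorem D1_smooth (hΩ : IsOpen Ω) (hf : ContDiffOn ℝ ∞ f Ω) (v : ℂ) : ContDiffOn ℝ ∞ (D1 v f) Ω := by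
  have h1 : ContDiffOn ℝ ∞ (fderiv ℝ f) Ω := hf.fderiv_of_isOpen hΩ (by simp)
  exact h1.clm_apply contDiffOn_const

theorem Dl_smooth (hΩ : IsOpen Ω) (hf : ContDiffOn ℝ ∞ f Ω) (l : List ℂ) :
    ContDiffOn ℝ ∞ (Dl l f) Ω := by
  induction l with
  | nil => exact hf
  | cons v l ih => exact D1_smooth hΩ ih v

theorem D1_congr (hΩ : IsOpen Ω) (h : EqOn f g Ω) (v : ℂ) : EqOn (D1 v f) (D1 v g) Ω := by
  intro z hz
  have h1 : f =ᶠ[𝓝 z] g := Filter.eventuallyEq_of_mem (hΩ.mem_nhds hz) h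
  unfold D1
  rw [h1.fderiv_eq]

theorem Dl_congr (hΩ : IsOpen Ω) (h : EqOn f g Ω) (l : List ℂ) : EqOn (Dl l f) (Dl l g) Ω := by
  induction l with
  | nil => exact h
  | cons v l ih => exact D1_congr hΩ ih v

theorem Dl_append (l l' : List ℂ) (u : ℂ → ℝ) : Dl (l ++ l') u = Dl l (Dl l' u) := by
  induction l with
  | nil => rfl
  | cons v l ih =>
    simp only [List.cons_append, Dl, ih]

theorem diffAt (hΩ : IsOpen Ω) (hf : ContDiffOn ℝ ∞ f Ω) (hz : z ∈ Ω) : DifferentiableAt ℝ f z :=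
  (hf.contDiffAt (hΩ.mem_nhds hz)).differentiableAt (by simp)

theorem D1_comm (hΩ : IsOpen Ω) (hf : ContDiffOn ℝ ∞ f Ω) (v w : ℂ) :
    EqOn (D1 v (D1 w f)) (D1 w (D1 v f)) Ω := by
  intro z hz
  have h0 : ContDiffAt ℝ ∞ f z := hf.contDiffAt (hΩ.mem_nhds hz)
  have h1 : IsSymmSndFDerivAt ℝ f z := h0.isSymmSndFDerivAt (by
    rw [minSmoothness_of_isRCLikeNormedField]
    exact WithTop.coe_le_coe.2 (le_top : (2 : ℕ∞) ≤ ⊤))
  have h2 : DifferentiableAt ℝ (fderiv ℝ f) z := by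
    have h3 : ContDiffOn ℝ ∞ (fderiv ℝ f) Ω := hf.fderiv_of_isOpen hΩ (by simp)
    exact (h3.contDiffAt (hΩ.mem_nhds hz)).differentiableAt (by simp)
  have h4 : ∀ a b : ℂ, D1 a (D1 b f) z = fderiv ℝ (fderiv ℝ f) z a b := by
    intro a b
    have h5 : HasFDerivAt (fun y => fderiv ℝ f y b)
        ((ContinuousLinearMap.apply ℝ ℝ b).comp (fderiv ℝ (fderiv ℝ f) z)) z :=
      (ContinuousLinearMap.apply ℝ ℝ b).hasFDerivAt.comp z h2.hasFDerivAt
    have h6 : D1 b f = fun y => fderiv ℝ f y b := rfl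
    unfold D1
    rw [show (fun z => (fderiv ℝ f z) b) = fun y => fderiv ℝ f y b from rfl, h5.fderiv]
    rfl
  rw [h4, h4]
  exact h1 v w

theorem Dl_perm (hΩ : IsOpen Ω) (hf : ContDiffOn ℝ ∞ f Ω) {l l' : List ℂ} (h : l.Perm l') :
    EqOn (Dl l f) (Dl l' f) Ω := by
  induction h with
  | nil => exact fun z _ => rfl
  | cons v h ih => exact D1_congr hΩ ih v
  | swap v w l => exact D1_comm hΩ (Dl_smooth hΩ hf l) w v
  | trans h1 h2 ih1 ih2 => exact ih1.trans ih2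

theorem D1_add (hΩ : IsOpen Ω) (hf : ContDiffOn ℝ ∞ f Ω) (hg : ContDiffOn ℝ ∞ g Ω) (v : ℂ) :
    EqOn (D1 v (fun y => f y + g y)) (fun y => D1 v f y + D1 v g y) Ω := by
  intro z hz
  have := ((diffAt hΩ hf hz).hasFDerivAt.add (diffAt hΩ hg hz).hasFDerivAt).fderiv
  unfold D1
  rw [show (fun y => f y + g y) = f + g from rfl, this]
  rfl

theorem Dl_add (hΩ : IsOpen Ω) (hf : ContDiffOn ℝ ∞ f Ω) (hg : ContDiffOn ℝ ∞ g Ω) (l : List ℂ) :
    EqOn (Dl l (fun y => f y + g y)) (fun y => Dl l f y + Dl l g y) Ω := by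
  induction l with
  | nil => exact fun z _ => rfl
  | cons v l ih =>
    refine (D1_congr hΩ ih v).trans ?_
    exact D1_add hΩ (Dl_smooth hΩ hf l) (Dl_smooth hΩ hg l) v

theorem D1_mul (hΩ : IsOpen Ω) (hf : ContDiffOn ℝ ∞ f Ω) (hg : ContDiffOn ℝ ∞ g Ω) (v : ℂ) :
    EqOn (D1 v (fun y => f y * g y)) (fun y => D1 v f y * g y + f y * D1 v g y) Ω := by
  intro z hz
  have h1 := ((diffAt hΩ hf hz).hasFDerivAt.mul (diffAt hΩ hg hz).hasFDerivAt).fderiv
  unfold D1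
  rw [show (fun y => f y * g y) = f * g from rfl, h1]
  simp [mul_comm]
  ring

/-- Leibniz: vanishing of a product -/
theorem Dl_mul_eq_zero (hΩ : IsOpen Ω) (hz : z ∈ Ω) (l : List ℂ) :
    ∀ f g : ℂ → ℝ, ContDiffOn ℝ ∞ f Ω → ContDiffOn ℝ ∞ g Ω →
      (∀ l' : List ℂ, l'.length ≤ l.length → Dl l' g z = 0) → Dl l (fun y => f y * g y) z = 0 := by
  induction l using List.reverseRecOn with
  | nil =>
    intro f g hf hg h
    have := h [] le_rfl
    simp only [Dl] at this ⊢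
    rw [this, mul_zero]
  | append_singleton l v ih =>
    intro f g hf hg h
    rw [Dl_append]
    have h1 : EqOn (Dl [v] (fun y => f y * g y)) (fun y => D1 v f y * g y + f y * D1 v g y) Ω :=
      D1_mul hΩ hf hg v
    rw [Dl_congr hΩ h1 l hz]
    have h2 := Dl_add hΩ ((D1_smooth hΩ hf v).mul hg) (hf.mul (D1_smooth hΩ hg v)) l hz
    rw [h2]
    simp only
    rw [ih _ _ (D1_smooth hΩ hf v) hg (fun l' hl' => h l' (by simp; omega)),
      ih _ _ hf (D1_smooth hΩ hg v) (fun l' hl' => ?_), add_zero]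
    have h3 := h (l' ++ [v]) (by simp; omega)
    rwa [Dl_append] at h3

theorem D1_dir_add (a b : ℝ) (v w : ℂ) (f : ℂ → ℝ) (z : ℂ) :
    D1 (a • v + b • w) f z = a * D1 v f z + b * D1 w f z := by
  unfold D1
  rw [map_add, map_smul, map_smul]
  rfl

/-- relation with the iterated Fréchet derivative -/
theorem iterated_eq (hΩ : IsOpen Ω) (hu : ContDiffOn ℝ ∞ u Ω) (n : ℕ) :
    ∀ (v : Fin n → ℂ), ∀ z ∈ Ω, iteratedFDeriv ℝ n u z v = Dl (List.ofFn v) u z := by
  induction n with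
  | zero =>
    intro v z hz
    simp [Dl]
  | succ n ih =>
    intro v z hz
    have h2 : DifferentiableAt ℝ (iteratedFDeriv ℝ n u) z := by
      have h1 : ContDiffAt ℝ ∞ u z := hu.contDiffAt (hΩ.mem_nhds hz)
      have h2 : ContDiffAt ℝ 1 (iteratedFDeriv ℝ n u) z := by
        refine h1.iteratedFDeriv_right ?_
        have h3 : ((1 : WithTop ℕ∞) + (n : WithTop ℕ∞)) = ((1 + n : ℕ) : WithTop ℕ∞) := by
          push_cast
          rfl
        rw [h3]
        exact_mod_cast le_top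
      exact h2.differentiableAt one_ne_zero
    rw [h2.iteratedFDeriv_succ_apply_left', List.ofFn_succ]
    have h4 : EqOn (fun y => iteratedFDeriv ℝ n u y (Fin.tail v))
        (Dl (List.ofFn fun i => v i.succ) u) Ω := fun y hy => ih (Fin.tail v) y hy
    exact D1_congr hΩ h4 (v 0) hz

theorem exists_ofFn (l : List ℂ) (n : ℕ) (hl : l.length = n) : ∃ w : Fin n → ℂ, List.ofFn w = l := by
  subst hl
  exact ⟨l.get, List.ofFn_get l⟩

theorem iterated_eq_zero_iff (hΩ : IsOpen Ω) (hu : ContDiffOn ℝ ∞ u Ω) (n : ℕ) (hz : z ∈ Ω) :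
    iteratedFDeriv ℝ n u z = 0 ↔ ∀ l : List ℂ, l.length = n → Dl l u z = 0 := by
  constructor
  · intro h l hl
    subst hl
    have h1 := iterated_eq hΩ hu l.length (fun i => l.get i) z hz
    rw [h] at h1
    rw [List.ofFn_get] at h1
    exact h1.symm
  · intro h
    ext v
    rw [iterated_eq hΩ hu n v z hz, h _ (by simp)]
    rfl

/-- the trace vanishes -/
theorem trace_zero (hΩ : IsOpen Ω) (hu : ContDiffOn ℝ ∞ u Ω) (hq : ContDiffOn ℝ ∞ q Ω)
    (heq : ∀ z ∈ Ω, lap u z + q z * u z = 0) (hz : z ∈ Ω) {n : ℕ}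
    (hv : ∀ l : List ℂ, l.length ≤ n → Dl l u z = 0) (l : List ℂ) (hl : l.length = n) :
    Dl (1 :: 1 :: l) u z + Dl (I :: I :: l) u z = 0 := by
  have h1 : ∀ v : ℂ, Dl (v :: v :: l) u z = Dl l (Dl [v, v] u) z := by
    intro v
    rw [← Dl_append]
    refine Dl_perm hΩ hu ?_ hz
    simpa using (List.perm_append_comm : ([v, v] ++ l).Perm (l ++ [v, v]))
  rw [h1, h1]
  have h2 := Dl_add hΩ (Dl_smooth hΩ hu [1, 1]) (Dl_smooth hΩ hu [I, I]) l hz
  simp only at h2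
  rw [← h2]
  have h3 : EqOn (fun y => Dl [1, 1] u y + Dl [I, I] u y) (fun y => (-q y) * u y) Ω := by
    intro y hy
    have h4 := heq y hy
    have h5 : lap u y = Dl [1, 1] u y + Dl [I, I] u y := rfl
    simp only
    rw [← h5]
    linarith
  rw [Dl_congr hΩ h3 l hz]
  exact Dl_mul_eq_zero hΩ hz l _ _ hq.neg hu (fun l' hl' => hv l' (by omega))

theorem trace_zero' (hΩ : IsOpen Ω) (hu : ContDiffOn ℝ ∞ u Ω) (hq : ContDiffOn ℝ ∞ q Ω)
    (heq : ∀ z ∈ Ω, lap u z + q z * u z = 0) (hz : z ∈ Ω) {n : ℕ}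
    (hv : ∀ l : List ℂ, l.length ≤ n → Dl l u z = 0) (l : List ℂ) (hl : l.length = n) (v : ℂ) :
    Dl (v :: v :: l) u z + Dl (I * v :: I * v :: l) u z = 0 := by
  have h1 := trace_zero hΩ hu hq heq hz hv l hl
  have hv1 : v = v.re • (1 : ℂ) + v.im • I := by
    apply Complex.ext <;> simp
  have hv2 : I * v = (-v.im) • (1 : ℂ) + v.re • I := by
    apply Complex.ext <;> simp
  have hexp : ∀ a b : ℝ, Dl ((a • (1 : ℂ) + b • I) :: (a • (1 : ℂ) + b • I) :: l) u z =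
      a * (a * Dl (1 :: 1 :: l) u z + b * Dl (1 :: I :: l) u z) +
      b * (a * Dl (I :: 1 :: l) u z + b * Dl (I :: I :: l) u z) := by
    intro a b
    have h2 : Dl ((a • (1 : ℂ) + b • I) :: (a • (1 : ℂ) + b • I) :: l) u z =
      D1 (a • (1 : ℂ) + b • I) (Dl ((a • (1 : ℂ) + b • I) :: l) u) z := rfl
    rw [h2, D1_dir_add]
    have h3 : ∀ w : ℂ, D1 w (Dl ((a • (1 : ℂ) + b • I) :: l) u) z =
        a * Dl (w :: 1 :: l) u z + b * Dl (w :: I :: l) u z := by
      intro w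
      have h4 : D1 w (Dl ((a • (1 : ℂ) + b • I) :: l) u) z =
          Dl (w :: (a • (1 : ℂ) + b • I) :: l) u z := rfl
      have h5 : Dl (w :: (a • (1 : ℂ) + b • I) :: l) u z =
          Dl ((a • (1 : ℂ) + b • I) :: w :: l) u z :=
        Dl_perm hΩ hu (List.Perm.swap _ _ _) hz
      have h6 : Dl ((a • (1 : ℂ) + b • I) :: w :: l) u z =
          D1 (a • (1 : ℂ) + b • I) (Dl (w :: l) u) z := rfl
      rw [h4, h5, h6, D1_dir_add]
      have h7 : ∀ t : ℂ, D1 t (Dl (w :: l) u) z = Dl (w :: t :: l) u z := by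
        intro t
        exact Dl_perm (l := t :: w :: l) hΩ hu (List.Perm.swap _ _ _) hz
      rw [h7, h7]
    rw [h3, h3]
  have hs : Dl (1 :: I :: l) u z = Dl (I :: 1 :: l) u z :=
    Dl_perm hΩ hu (List.Perm.swap _ _ _) hz
  have e1 := hexp v.re v.im
  have e2 := hexp (-v.im) v.re
  rw [← hv1] at e1
  rw [← hv2] at e2
  rw [e1, e2]
  linear_combination (v.re ^ 2 + v.im ^ 2) * h1

/-- no kernel -/
theorem no_kernel (hΩ : IsOpen Ω) (hu : ContDiffOn ℝ ∞ u Ω) (hq : ContDiffOn ℝ ∞ q Ω)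
    (heq : ∀ z ∈ Ω, lap u z + q z * u z = 0) (hz : z ∈ Ω) {n : ℕ}
    (hv : ∀ l : List ℂ, l.length ≤ n → Dl l u z = 0) {v : ℂ} (hv0 : v ≠ 0)
    (hk : ∀ l : List ℂ, l.length = n + 1 → Dl (v :: l) u z = 0) (l : List ℂ)
    (hl : l.length = n + 2) : Dl l u z = 0 := by
  obtain ⟨w, m, rfl⟩ : ∃ w m, l = w :: m := by
    cases l with
    | nil => simp at hl
    | cons w m => exact ⟨w, m, rfl⟩
  obtain ⟨w', m, rfl⟩ : ∃ w m', m = w :: m' := by
    cases m with
    | nil => simp at hl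
    | cons w m => exact ⟨w, m, rfl⟩
  have hm : m.length = n := by simpa using hl
  have hdec : ∀ t : ℂ, ∃ a b : ℝ, t = a • v + b • (I * v) := by
    intro t
    refine ⟨(t / v).re, (t / v).im, ?_⟩
    have h1 : t = (t / v) * v := by field_simp
    conv_lhs => rw [h1, ← Complex.re_add_im (t / v)]
    simp only [Complex.real_smul]
    ring
  have hred : ∀ (t : ℂ) (k : List ℂ), k.length = n + 1 → ∃ b : ℝ,
      Dl (t :: k) u z = b * Dl (I * v :: k) u z := by
    intro t k hk'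
    obtain ⟨a, b, hab⟩ := hdec t
    refine ⟨b, ?_⟩
    have h2 : Dl (t :: k) u z = D1 t (Dl k u) z := rfl
    rw [h2, hab, D1_dir_add]
    have h3 : D1 v (Dl k u) z = 0 := hk k hk'
    rw [h3]
    have h4 : D1 (I * v) (Dl k u) z = Dl (I * v :: k) u z := rfl
    rw [h4]
    ring
  obtain ⟨b, hb⟩ := hred w (w' :: m) (by simp [hm])
  rw [hb]
  have h5 : Dl (I * v :: w' :: m) u z = Dl (w' :: I * v :: m) u z :=
    Dl_perm hΩ hu (List.Perm.swap _ _ _) hz
  rw [h5]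
  obtain ⟨b', hb'⟩ := hred w' (I * v :: m) (by simp [hm])
  rw [hb']
  have h6 := trace_zero' hΩ hu hq heq hz hv m hm v
  have h7 := hk (v :: m) (by simp [hm])
  rw [h7, zero_add] at h6
  rw [h6]
  ring

/-- the set of zeros of order exactly `n + 2` -/
def Tn (Ω : Set ℂ) (u : ℂ → ℝ) (n : ℕ) : Set ℂ :=
  {z | z ∈ Ω ∧ (∀ j ≤ n + 1, iteratedFDeriv ℝ j u z = 0) ∧ iteratedFDeriv ℝ (n + 2) u z ≠ 0}

theorem isolated (hΩ : IsOpen Ω) (hu : ContDiffOn ℝ ∞ u Ω) (hq : ContDiffOn ℝ ∞ q Ω)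
    (heq : ∀ z ∈ Ω, lap u z + q z * u z = 0) (n : ℕ) (hz : z ∈ Tn Ω u n) :
    ∀ᶠ y in 𝓝[≠] z, iteratedFDeriv ℝ (n + 1) u y ≠ 0 := by
  obtain ⟨hzΩ, hlow, htop⟩ := hz
  have hv : ∀ l : List ℂ, l.length ≤ n → Dl l u z = 0 := fun l hl =>
    (iterated_eq_zero_iff hΩ hu l.length hzΩ).1 (hlow _ (by omega)) l rfl
  have hdiff : DifferentiableAt ℝ (iteratedFDeriv ℝ (n + 1) u) z := by
    have h1 : ContDiffAt ℝ ∞ u z := hu.contDiffAt (hΩ.mem_nhds hzΩ)
    have h2 : ContDiffAt ℝ 1 (iteratedFDeriv ℝ (n + 1) u) z := by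
      refine h1.iteratedFDeriv_right ?_
      have h3 : ((1 : WithTop ℕ∞) + ((n + 1 : ℕ) : WithTop ℕ∞)) = ((1 + (n + 1) : ℕ) : WithTop ℕ∞) := by
        push_cast
        rfl
      rw [h3]
      exact_mod_cast le_top
    exact h2.differentiableAt one_ne_zero
  refine hdiff.hasFDerivAt.eventually_ne ?_
  have hker : LinearMap.ker (fderiv ℝ (iteratedFDeriv ℝ (n + 1) u) z : ℂ →ₗ[ℝ]
      ContinuousMultilinearMap ℝ (fun _ : Fin (n + 1) => ℂ) ℝ) = ⊥ := by
    rw [LinearMap.ker_eq_bot']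
    intro v hv1
    by_contra hv0
    apply htop
    rw [iterated_eq_zero_iff hΩ hu _ hzΩ]
    refine no_kernel hΩ hu hq heq hzΩ hv hv0 ?_
    intro l hl
    obtain ⟨w, hw⟩ := exists_ofFn l (n + 1) hl
    have h1 := iterated_eq hΩ hu (n + 2) (Fin.cons v w) z hzΩ
    rw [hdiff.iteratedFDeriv_succ_apply_left'] at h1
    have h2 : List.ofFn (Fin.cons v w : Fin (n + 2) → ℂ) = v :: l := by
      rw [List.ofFn_succ, ← hw]
      rfl
    rw [h2] at h1
    rw [← h1]
    have h3 : fderiv ℝ (fun y => iteratedFDeriv ℝ (n + 1) u y (Fin.tail (Fin.cons v w :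
        Fin (n + 2) → ℂ))) z = (ContinuousMultilinearMap.apply ℝ (fun _ : Fin (n + 1) => ℂ) ℝ
        (Fin.tail (Fin.cons v w : Fin (n + 2) → ℂ))).comp
        (fderiv ℝ (iteratedFDeriv ℝ (n + 1) u) z) :=
      ((ContinuousMultilinearMap.apply ℝ (fun _ : Fin (n + 1) => ℂ) ℝ
        (Fin.tail (Fin.cons v w : Fin (n + 2) → ℂ))).hasFDerivAt.comp z hdiff.hasFDerivAt).fderiv
    rw [h3]
    have h4 : (fderiv ℝ (iteratedFDeriv ℝ (n + 1) u) z) v = 0 := hv1
    simp only [ContinuousLinearMap.comp_apply, Fin.cons_zero]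
    rw [h4]
    simp
  obtain ⟨K, _, hK⟩ := LinearMap.exists_antilipschitzWith _ hker
  exact ⟨K, hK⟩

theorem Tn_countable (hΩ : IsOpen Ω) (hu : ContDiffOn ℝ ∞ u Ω) (hq : ContDiffOn ℝ ∞ q Ω)
    (heq : ∀ z ∈ Ω, lap u z + q z * u z = 0) (n : ℕ) : (Tn Ω u n).Countable := by
  obtain ⟨t, ht, htc, hts⟩ := TopologicalSpace.countable_cover_nhdsWithin
    (f := fun x : ℂ => ({x} : Set ℂ)) (s := Tn Ω u n) (by
      intro x hx
      have h1 := isolated hΩ hu hq heq n hx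
      rw [eventually_nhdsWithin_iff] at h1
      rw [mem_nhdsWithin_iff_eventually]
      filter_upwards [h1] with y hy hyT
      by_contra hne
      exact hy hne (hyT.2.1 (n + 1) le_rfl))
  refine htc.mono (fun x hx => ?_)
  have := hts hx
  simp only [mem_iUnion, mem_singleton_iff, exists_prop] at this
  obtain ⟨i, hi, rfl⟩ := this
  exact hi

theorem te6 : Run7.h341.NLen.E6 := by
  intro Ω q u hΩ hu hq heq hnf
  refine (Set.countable_iUnion (fun n => Tn_countable hΩ hu hq heq n)).mono ?_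
  rintro z ⟨hz, h0, h1⟩
  classical
  have hex := hnf z hz
  have hN := Nat.find_spec hex
  set N := Nat.find hex with hNd
  have hmin : ∀ m < N, iteratedFDeriv ℝ m u z = 0 := fun m hm => not_not.1 (Nat.find_min hex hm)
  rcases hN0 : N with _ | _ | n
  · exfalso
    apply hN
    rw [hN0]
    ext v
    rw [iteratedFDeriv_zero_apply, h0]
    rfl
  · exfalso
    apply hN
    rw [hN0]
    rw [iterated_eq_zero_iff hΩ hu _ hz]
    intro l hl
    obtain ⟨v, rfl⟩ : ∃ v, l = [v] := List.length_eq_one_iff.1 hl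
    have h2 : dx u z = 0 ∧ dy u z = 0 := by
      unfold Run7.h341.NLen.gsq at h1
      constructor <;> nlinarith [sq_nonneg (dx u z), sq_nonneg (dy u z)]
    have hv1 : v = v.re • (1 : ℂ) + v.im • I := by
      apply Complex.ext <;> simp
    have h3 : Dl [v] u z = D1 v u z := rfl
    rw [h3, hv1, D1_dir_add]
    have h4 : D1 1 u z = dx u z := rfl
    have h5 : D1 I u z = dy u z := rfl
    rw [h4, h5, h2.1, h2.2]
    ring
  · refine mem_iUnion.2 ⟨n, hz, fun j hj => hmin j (by omega), ?_⟩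
    rw [hN0] at hN
    exact hN

end

end Run7.h159.E6
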