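import Pool.Agent.Run7.h341.NLen.TE1
import Pool.Agent.Run7.h341.NLen.TE3
import Pool.Agent.Run7.h341.NLen.TE4
import Pool.Agent.Run7.h159.NodE6
import Pool.Agent.Q73.NL.U
import Pool.Agent.Q73.AD.YAf

/-!
# The length of the nodal set in a small disc (piece E7)
-/

set_option autoImplicit false
open MeasureTheory Filter Topology Complex Metric Set
open scoped ContDiff

namespace Run7.h159.E7

open Pool.Agent.Q73.NL Pool.Agent.Q73.AD Run7.h341.NLen

noncomputable section

theorem dx_sub_const (f : ℂ → ℝ) (c : ℝ) : dx (fun z => f z - c) = dx f := by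
  funext z
  unfold dx
  rw [fderiv_sub_const]

theorem dy_sub_const (f : ℂ → ℝ) (c : ℝ) : dy (fun z => f z - c) = dy f := by
  funext z
  unfold dy
  rw [fderiv_sub_const]

theorem lap_sub_const (f : ℂ → ℝ) (c : ℝ) (z : ℂ) : lap (fun z => f z - c) z = lap f z := by
  unfold lap
  rw [dx_sub_const, dy_sub_const]

theorem gsq_sub_const (f : ℂ → ℝ) (c : ℝ) : gsq (fun z => f z - c) = gsq f := by
  funext z
  unfold gsq
  rw [dx_sub_const, dy_sub_const]

theorem intOn {f : ℂ → ℝ} (hf : Continuous f) (r : ℝ) : IntegrableOn f (ball (0 : ℂ) r) :=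
  (hf.continuousOn.integrableOn_compact (isCompact_closedBall 0 r)).mono_set ball_subset_closedBall

/-- the regular part, normalised -/
theorem core (h2 : E2) (h5 : E5) : ∃ C : ℝ, 1 ≤ C ∧ ∀ (v : ℂ → ℝ) (S : ℝ) (z₀ : ℂ), ContDiff ℝ ∞ v →
    0 < S → (∀ z ∈ ball (0 : ℂ) 10, |lap v z| ≤ |v z| ∧ |v z| ≤ S) → z₀ ∈ closedBall (0 : ℂ) 1 →
    v z₀ ≠ 0 → μH[1] {z : ℂ | z ∈ ball (0 : ℂ) 1 ∧ v z = 0 ∧ 0 < gsq v z} ≤
      ENNReal.ofReal (C * (1 + Real.log (S / |v z₀|))) := by
  obtain ⟨C2, hC2, H2⟩ := h2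
  obtain ⟨C3, hC3, H3⟩ := te3
  obtain ⟨C4, hC4, H4⟩ := te4
  obtain ⟨C5, hC5, H5⟩ := h5
  set V : ℝ := volume.real (ball (0 : ℂ) 9) with hV
  have hV0 : 0 ≤ V := measureReal_nonneg
  set J : ℝ := (C3 + 2 * V) / 2 with hJ
  have hJ0 : 0 ≤ J := by rw [hJ]; linarith
  have hK : 1 ≤ 1 + C2 * (1 + J) := by nlinarith
  refine ⟨C5 * (C4 * (1 + C2 * (1 + J))), ?_, ?_⟩
  · have h1 : 1 ≤ C4 * (1 + C2 * (1 + J)) := by nlinarith
    nlinarith
  intro v S z₀ hv hS hb hz₀ hvz
  have hz₀' : z₀ ∈ ball (0 : ℂ) 10 := closedBall_subset_ball (by norm_num) hz₀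
  have hpos : 0 < |v z₀| := abs_pos.2 hvz
  set N : ℝ := Real.log (S / |v z₀|) with hN
  have hN0 : 0 ≤ N := by
    rw [hN]
    refine Real.log_nonneg ?_
    rw [le_div_iff₀ hpos, one_mul]
    exact (hb z₀ hz₀').2
  set M : ℝ := C4 * (1 + C2 * (1 + N + J)) with hM
  have hM0 : 0 ≤ M := by
    rw [hM]
    have : 0 ≤ C2 * (1 + N + J) := by positivity
    nlinarith
  have key : ∀ δ ε : ℝ, 0 < δ → δ ≤ S → 0 < ε →
      ∫ z in ball (0 : ℂ) 1, ε / (ε ^ 2 + v z ^ 2) * (gsq v z / √(PP δ v z)) ≤ M := by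
    intro δ ε hδ hδS hε
    have h1 := H4 v δ ε hδ hε hv (fun z hz => (hb z hz).1)
    obtain ⟨A, B, μ, hsys⟩ := te1 δ v hδ hv (fun z hz => (hb z hz).1)
    have hsys' : Sys (fun z => LL δ v z - Real.log S) A B μ := by
      refine ⟨hsys.smoothL.sub contDiff_const, hsys.smoothA, hsys.smoothB, hsys.contμ, ?_,
        hsys.nonneg, hsys.bd⟩
      intro z hz
      rw [lap_sub_const]
      exact hsys.eq z hz
    have hlow : -N ≤ LL δ v z₀ - Real.log S := by
      have e1 : N = Real.log S - Real.log |v z₀| := by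
        rw [hN, Real.log_div hS.ne' hpos.ne']
      have e2 : Real.log |v z₀| ≤ LL δ v z₀ := by
        unfold LL
        have e3 : Real.log (|v z₀| ^ 2) ≤ Real.log (PP δ v z₀) := by
          refine Real.log_le_log (by positivity) ?_
          rw [sq_abs]
          unfold PP
          have := gsq_nonneg v z₀
          nlinarith [sq_nonneg δ]
        rw [Real.log_pow] at e3
        push_cast at e3
        linarith
      linarith
    have hup : ∫ z in ball (0 : ℂ) 9, max (LL δ v z - Real.log S) 0 ≤ J := by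
      have hcont : Continuous fun z => max (LL δ v z - Real.log S) 0 :=
        (hsys'.smoothL.continuous).max continuous_const
      have hcont2 : Continuous fun z => gsq v z / (2 * S ^ 2) := by
        exact (gsq_cd hv).continuous.div_const _
      have hle : ∀ z ∈ ball (0 : ℂ) 9, max (LL δ v z - Real.log S) 0 ≤
          gsq v z / (2 * S ^ 2) + 1 := by
        intro z hz
        have hz' : z ∈ ball (0 : ℂ) 10 := ball_subset_ball (by norm_num) hz
        have g0 := gsq_nonneg v z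
        refine max_le ?_ (by positivity)
        have hP := PP_pos hδ v z
        have f1 : LL δ v z - Real.log S = (1 / 2) * Real.log (PP δ v z / S ^ 2) := by
          rw [Real.log_div hP.ne' (by positivity), Real.log_pow]
          unfold LL
          push_cast
          ring
        have f2 : Real.log (PP δ v z / S ^ 2) ≤ PP δ v z / S ^ 2 := by
          have := Real.log_le_sub_one_of_pos (show 0 < PP δ v z / S ^ 2 by positivity)
          linarith
        have f3 : PP δ v z ≤ gsq v z + 2 * S ^ 2 := by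
          unfold PP
          have f4 : v z ^ 2 ≤ S ^ 2 := by
            rw [← sq_abs]
            exact pow_le_pow_left₀ (abs_nonneg _) (hb z hz').2 2
          have f5 : δ ^ 2 ≤ S ^ 2 := pow_le_pow_left₀ hδ.le hδS 2
          linarith
        rw [f1]
        have f6 : PP δ v z / S ^ 2 ≤ (gsq v z + 2 * S ^ 2) / S ^ 2 := by gcongr
        have f7 : (1 / 2) * ((gsq v z + 2 * S ^ 2) / S ^ 2) = gsq v z / (2 * S ^ 2) + 1 := by
          field_simp
        linarith
      have g1 : ∫ z in ball (0 : ℂ) 9, max (LL δ v z - Real.log S) 0 ≤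
          ∫ z in ball (0 : ℂ) 9, (gsq v z / (2 * S ^ 2) + 1) := by
        refine setIntegral_mono_on (intOn hcont 9) (intOn (hcont2.add continuous_const) 9)
          measurableSet_ball hle
      have g2 : ∫ z in ball (0 : ℂ) 9, (gsq v z / (2 * S ^ 2) + 1) =
          (∫ z in ball (0 : ℂ) 9, gsq v z) / (2 * S ^ 2) + V := by
        rw [integral_add (intOn hcont2 9) (intOn continuous_const 9), integral_div]
        congr 1
        rw [setIntegral_const, smul_eq_mul, mul_one]
      have g3 := H3 v S hv hb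
      have g4 : (∫ z in ball (0 : ℂ) 9, gsq v z) / (2 * S ^ 2) ≤ C3 / 2 := by
        rw [div_le_div_iff₀ (by positivity) (by norm_num)]
        nlinarith
      rw [g2] at g1
      rw [hJ]
      linarith
    have h3 := H2 (fun z => LL δ v z - Real.log S) A B μ N J z₀ hsys' hz₀ hN0 hJ0 hlow hup
    rw [gsq_sub_const] at h3
    refine h1.trans ?_
    rw [hM]
    have : 1 + ∫ z in ball (0 : ℂ) 2, √(gsq (LL δ v) z) ≤ 1 + C2 * (1 + N + J) := by linarith
    exact mul_le_mul_of_nonneg_left this (by linarith)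
  have h6 := H5 v M S hv hM0 hS key
  refine h6.trans (ENNReal.ofReal_le_ofReal ?_)
  rw [hM]
  have e1 : 1 + C2 * (1 + N + J) ≤ (1 + C2 * (1 + J)) * (1 + N) := by
    nlinarith [mul_nonneg hN0 hJ0, mul_nonneg (mul_nonneg hN0 hJ0) (show 0 ≤ C2 by linarith)]
  calc C5 * (C4 * (1 + C2 * (1 + N + J))) ≤ C5 * (C4 * ((1 + C2 * (1 + J)) * (1 + N))) := by
        gcongr
    _ = C5 * (C4 * (1 + C2 * (1 + J))) * (1 + N) := by ring

/-- the whole zero set -/
theorem core' (h2 : E2) (h5 : E5) : ∃ C : ℝ, 1 ≤ C ∧ ∀ (v q : ℂ → ℝ) (S : ℝ) (z₀ : ℂ),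
    ContDiff ℝ ∞ v → ContDiffOn ℝ ∞ q (ball (0 : ℂ) 10) → 0 < S →
    (∀ z ∈ ball (0 : ℂ) 10, |q z| ≤ 1 ∧ lap v z + q z * v z = 0 ∧ |v z| ≤ S) →
    (∀ z ∈ ball (0 : ℂ) 10, ¬ ∀ᶠ y in 𝓝 z, v y = 0) → z₀ ∈ closedBall (0 : ℂ) 1 →
    v z₀ ≠ 0 → μH[1] {z : ℂ | z ∈ ball (0 : ℂ) 1 ∧ v z = 0} ≤
      ENNReal.ofReal (C * (1 + Real.log (S / |v z₀|))) := by
  obtain ⟨C, hC, H⟩ := core h2 h5
  refine ⟨C, hC, ?_⟩
  intro v q S z₀ hv hq hS hb hnz hz₀ hvz
  have hlap : ∀ z ∈ ball (0 : ℂ) 10, |lap v z| ≤ |v z| := by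
    intro z hz
    obtain ⟨b1, b2, -⟩ := hb z hz
    have : lap v z = - (q z * v z) := by linarith
    rw [this, abs_neg, abs_mul]
    exact mul_le_of_le_one_left (abs_nonneg _) b1
  have h1 := H v S z₀ hv hS (fun z hz => ⟨hlap z hz, (hb z hz).2.2⟩) hz₀ hvz
  have hnf : NoFlat (ball (0 : ℂ) 10) v := by
    intro z hz
    by_contra hcon
    push Not at hcon
    exact hnz z hz (u3 (ball (0 : ℂ) 10) 1 v isOpen_ball hv.contDiffOn
      (fun z hz => by rw [one_mul]; exact hlap z hz) z hz hcon)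
  have h6 := Run7.h159.E6.te6 (ball (0 : ℂ) 10) q v isOpen_ball hv.contDiffOn hq
    (fun z hz => (hb z hz).2.1) hnf
  have : NullSingletonClass (μH[1] : Measure ℂ) := Measure.nullSingletonClass_hausdorff ℂ one_pos
  have h7 : μH[1] {z : ℂ | z ∈ ball (0 : ℂ) 10 ∧ v z = 0 ∧ gsq v z = 0} = 0 := h6.measure_zero _
  have hsub : {z : ℂ | z ∈ ball (0 : ℂ) 1 ∧ v z = 0} ⊆
      {z : ℂ | z ∈ ball (0 : ℂ) 1 ∧ v z = 0 ∧ 0 < gsq v z} ∪
      {z : ℂ | z ∈ ball (0 : ℂ) 10 ∧ v z = 0 ∧ gsq v z = 0} := by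
    rintro z ⟨hz, hz0⟩
    rcases (gsq_nonneg v z).lt_or_eq with h | h
    · exact Or.inl ⟨hz, hz0, h⟩
    · exact Or.inr ⟨ball_subset_ball (by norm_num) hz, hz0, h.symm⟩
  refine (measure_mono hsub).trans ((measure_union_le _ _).trans ?_)
  rw [h7, add_zero]
  exact h1

/-- a smooth function on an open disc agrees on a smaller closed disc with a smooth function on the plane -/
theorem extend {f : ℂ → ℝ} {r R : ℝ} (hr : 0 < r) (hrR : r < R) (hf : ContDiffOn ℝ ∞ f (ball (0 : ℂ) R)) :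
    ∃ g : ℂ → ℝ, ContDiff ℝ ∞ g ∧ ∀ z ∈ closedBall (0 : ℂ) r, g z = f z := by
  obtain ⟨χ, hχ⟩ : ∃ χ : ContDiffBump (0 : ℂ), χ = ⟨r, (r + R) / 2, hr, by linarith⟩ := ⟨_, rfl⟩
  refine ⟨fun z => χ z * f z, ?_, ?_⟩
  · rw [contDiff_iff_contDiffAt]
    intro z
    by_cases hz : z ∈ ball (0 : ℂ) R
    · exact χ.contDiff.contDiffAt.mul (hf.contDiffAt (isOpen_ball.mem_nhds hz))
    · have h1 : ∀ᶠ y in 𝓝 z, χ y * f y = 0 := by
        have h2 : z ∉ tsupport (χ : ℂ → ℝ) := by
          rw [χ.tsupport_eq, hχ]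
          simp only [mem_closedBall, mem_ball, dist_zero_right, not_lt, not_le] at hz ⊢
          linarith
        have h3 : (tsupport (χ : ℂ → ℝ))ᶜ ∈ 𝓝 z :=
          (isClosed_tsupport _).isOpen_compl.mem_nhds h2
        filter_upwards [h3] with y hy
        rw [image_eq_zero_of_notMem_tsupport hy, zero_mul]
      exact (contDiffAt_const (c := (0 : ℝ))).congr_of_eventuallyEq h1
  · intro z hz
    have h1 : χ z = 1 := by
      refine χ.one_of_mem_closedBall ?_
      rw [hχ]
      exact hz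
    simp only [h1, one_mul]

theorem bdd_of {u : ℂ → ℝ} {w : ℂ} {R : ℝ} (hu : ∀ z ∈ closedBall w R, ContinuousAt u z) :
    BddAbove ((fun x => |u x|) '' closedBall w R) :=
  ((isCompact_closedBall w R).image_of_continuousOn
    (fun z hz => ((hu z hz).abs).continuousWithinAt)).bddAbove

theorem sn_max {u : ℂ → ℝ} {w : ℂ} {R : ℝ} (hR : 0 ≤ R) (hu : ∀ z ∈ closedBall w R, ContinuousAt u z) :
    ∃ z ∈ closedBall w R, |u z| = sn u (closedBall w R) := by
  obtain ⟨z, hz, hmax⟩ := (isCompact_closedBall w R).exists_isMaxOn ⟨w, mem_closedBall_self hR⟩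
    (fun z hz => ((hu z hz).abs).continuousWithinAt : ContinuousOn (fun x => |u x|) (closedBall w R))
  refine ⟨z, hz, le_antisymm (le_csSup (bdd_of hu) ⟨z, hz, rfl⟩) ?_⟩
  refine csSup_le ⟨_, z, hz, rfl⟩ ?_
  rintro _ ⟨y, hy, rfl⟩
  exact hmax hy

theorem le_sn' {u : ℂ → ℝ} {w : ℂ} {R : ℝ} (hu : ∀ z ∈ closedBall w R, ContinuousAt u z) {z : ℂ}
    (hz : z ∈ closedBall w R) : |u z| ≤ sn u (closedBall w R) := le_csSup (bdd_of hu) ⟨z, hz, rfl⟩

theorem sn_mono' {u : ℂ → ℝ} {w : ℂ} {R R' : ℝ} (hR : 0 ≤ R) (hRR : R ≤ R')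
    (hu : ∀ z ∈ closedBall w R', ContinuousAt u z) :
    sn u (closedBall w R) ≤ sn u (closedBall w R') :=
  csSup_le_csSup (bdd_of hu) ⟨_, w, mem_closedBall_self hR, rfl⟩
    (image_mono (closedBall_subset_closedBall hRR))

/-- the scaled version with a smaller radius -/
theorem scaled (h2 : E2) (h5 : E5) : ∃ C : ℝ, 1 ≤ C ∧ ∀ (w : ℂ) (h h' : ℝ) (q u : ℂ → ℝ), 0 < h' →
    h' < h → (∀ z ∈ closedBall w (10 * h), ContDiffAt ℝ ∞ u z ∧ ContDiffAt ℝ ∞ q z ∧
      h ^ 2 * |q z| ≤ 1 ∧ lap u z + q z * u z = 0) →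
    (∀ (z : ℂ) (r : ℝ), 0 < r → closedBall z r ⊆ closedBall w (10 * h) → 0 < sn u (closedBall z r)) →
    μH[1] {z : ℂ | z ∈ ball w h' ∧ u z = 0} ≤ ENNReal.ofReal (C * h' * (1 +
      Real.log (sn u (closedBall w (10 * h')) / sn u (closedBall w h')))) := by
  obtain ⟨C, hC, H⟩ := core' h2 h5
  refine ⟨C, hC, ?_⟩
  intro w h h' q u hh' hlt hu hsn
  have hh : 0 < h := hh'.trans hlt
  have hα0 : (h' : ℂ) ≠ 0 := by exact_mod_cast hh'.ne'
  have hnα : ‖(h' : ℂ)‖ = h' := by rw [Complex.norm_real, Real.norm_of_nonneg hh'.le]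
  obtain ⟨v₀, hv₀⟩ : ∃ v₀ : ℂ → ℝ, v₀ = fun z => u (w + (h' : ℂ) * z) := ⟨_, rfl⟩
  have hmem : ∀ z ∈ ball (0 : ℂ) (10 * h / h'), w + (h' : ℂ) * z ∈ closedBall w (10 * h) := by
    intro z hz
    rw [mem_ball_zero_iff, lt_div_iff₀ hh'] at hz
    rw [mem_closedBall, dist_eq_norm, add_sub_cancel_left, norm_mul, hnα]
    linarith [mul_comm h' ‖z‖]
  have hR : 10 < 10 * h / h' := by
    rw [lt_div_iff₀ hh']
    linarith
  have hv₀s : ContDiffOn ℝ ∞ v₀ (ball (0 : ℂ) (10 * h / h')) := by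
    intro z hz
    rw [hv₀]
    exact (afc_contDiffAt _ u w h' z (hu _ (hmem z hz)).1).contDiffWithinAt
  obtain ⟨v, hv, hvv⟩ := extend (by norm_num) hR hv₀s
  have hcu : ∀ z ∈ closedBall w (10 * h), ContinuousAt u z := fun z hz => (hu z hz).1.continuousAt
  have hcu10 : ∀ z ∈ closedBall w (10 * h'), ContinuousAt u z := fun z hz =>
    hcu z (closedBall_subset_closedBall (by linarith) hz)
  have hcu1 : ∀ z ∈ closedBall w h', ContinuousAt u z := fun z hz =>
    hcu z (closedBall_subset_closedBall (by linarith) hz)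
  have hS : 0 < sn u (closedBall w (10 * h')) :=
    hsn w _ (by linarith) (closedBall_subset_closedBall (by linarith))
  have hs : 0 < sn u (closedBall w h') := hsn w _ hh' (closedBall_subset_closedBall (by linarith))
  obtain ⟨z₁, hz₁, hmax⟩ := sn_max hh'.le hcu1
  obtain ⟨z₀, hz₀⟩ : ∃ z₀ : ℂ, z₁ = w + (h' : ℂ) * z₀ := ⟨(z₁ - w) / h', by field_simp; ring⟩
  have hz₀m : z₀ ∈ closedBall (0 : ℂ) 1 := by
    rw [hz₀, mem_closedBall, dist_eq_norm, add_sub_cancel_left, norm_mul, hnα] at hz₁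
    rw [mem_closedBall_zero_iff]
    by_contra hcon
    push Not at hcon
    nlinarith
  have hvz₀ : v z₀ = u z₁ := by
    rw [hvv z₀ (closedBall_subset_closedBall (by norm_num) hz₀m), hv₀, hz₀]
  have heqOn : EqOn v v₀ (ball (0 : ℂ) 10) := fun z hz => hvv z (ball_subset_closedBall hz)
  have hlap : ∀ z ∈ ball (0 : ℂ) 10, lap v z = h' ^ 2 * lap u (w + (h' : ℂ) * z) := by
    intro z hz
    have e1 : lap v z = lap v₀ z := by
      have a1 := Run7.h159.E6.D1_congr isOpen_ball
        (Run7.h159.E6.D1_congr isOpen_ball heqOn 1) 1 hz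
      have a2 := Run7.h159.E6.D1_congr isOpen_ball
        (Run7.h159.E6.D1_congr isOpen_ball heqOn I) I hz
      exact congrArg₂ (· + ·) a1 a2
    rw [e1, hv₀, afc_lap u w h' z, hnα]
    exact (hu _ (hmem z (ball_subset_ball hR.le hz))).1.of_le
      (WithTop.coe_le_coe.2 (le_top : (2 : ℕ∞) ≤ ⊤))
  have hmem10 : ∀ z ∈ ball (0 : ℂ) 10, w + (h' : ℂ) * z ∈ closedBall w (10 * h') := by
    intro z hz
    rw [mem_ball_zero_iff] at hz
    rw [mem_closedBall, dist_eq_norm, add_sub_cancel_left, norm_mul, hnα]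
    nlinarith
  have hmain := H v (fun z => h' ^ 2 * q (w + (h' : ℂ) * z)) (sn u (closedBall w (10 * h'))) z₀ hv ?_
    hS ?_ ?_ hz₀m ?_
  · -- transfer
    rw [hvz₀, hmax] at hmain
    have hlip : LipschitzWith (Real.toNNReal h') (fun y : ℂ => w + (h' : ℂ) * y) := by
      refine LipschitzWith.of_dist_le_mul (fun x y => ?_)
      rw [dist_eq_norm, dist_eq_norm]
      have : w + (h' : ℂ) * x - (w + (h' : ℂ) * y) = (h' : ℂ) * (x - y) := by ring
      rw [this, norm_mul, hnα, Real.coe_toNNReal _ hh'.le]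
    have hsub : {z : ℂ | z ∈ ball w h' ∧ u z = 0} ⊆
        (fun y : ℂ => w + (h' : ℂ) * y) '' {z : ℂ | z ∈ ball (0 : ℂ) 1 ∧ v z = 0} := by
      rintro z ⟨hz, hz0⟩
      refine ⟨(z - w) / h', ⟨?_, ?_⟩, by simp only; field_simp; ring⟩
      · rw [mem_ball_zero_iff, norm_div, hnα, div_lt_one hh', ← dist_eq_norm]
        exact hz
      · have e2 : (z - w) / (h' : ℂ) ∈ closedBall (0 : ℂ) 10 := by
          rw [mem_closedBall_zero_iff, norm_div, hnα, div_le_iff₀ hh', ← dist_eq_norm]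
          have := mem_ball.1 hz
          linarith
        rw [hvv _ e2, hv₀]
        simp only
        rw [show w + (h' : ℂ) * ((z - w) / h') = z by field_simp; ring]
        exact hz0
    refine (measure_mono hsub).trans ((hlip.hausdorffMeasure_image_le zero_le_one _).trans ?_)
    rw [ENNReal.rpow_one]
    have e3 : ((Real.toNNReal h' : NNReal) : ENNReal) = ENNReal.ofReal h' := rfl
    rw [e3]
    calc ENNReal.ofReal h' * μH[1] {z : ℂ | z ∈ ball (0 : ℂ) 1 ∧ v z = 0} ≤
        ENNReal.ofReal h' * ENNReal.ofReal (C * (1 + Real.log (sn u (closedBall w (10 * h')) /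
          sn u (closedBall w h')))) := by gcongr
      _ = ENNReal.ofReal (C * h' * (1 + Real.log (sn u (closedBall w (10 * h')) /
          sn u (closedBall w h')))) := by
        rw [← ENNReal.ofReal_mul hh'.le]
        congr 1
        ring
  · intro z hz
    exact (contDiffAt_const.mul (afc_contDiffAt _ q w h' z
      (hu _ (hmem z (ball_subset_ball hR.le hz))).2.1)).contDiffWithinAt
  · intro z hz
    obtain ⟨-, -, c1, c2⟩ := hu _ (hmem z (ball_subset_ball hR.le hz))
    refine ⟨?_, ?_, ?_⟩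
    · rw [abs_mul, abs_of_pos (by positivity)]
      refine le_trans ?_ c1
      have : h' ^ 2 ≤ h ^ 2 := pow_le_pow_left₀ hh'.le hlt.le 2
      exact mul_le_mul_of_nonneg_right this (abs_nonneg _)
    · rw [hlap z hz, heqOn hz, hv₀]
      simp only
      linear_combination h' ^ 2 * c2
    · rw [heqOn hz, hv₀]
      exact le_sn' hcu10 (hmem10 z hz)
  · intro z hz hev
    obtain ⟨r, hr, hrb⟩ := Metric.eventually_nhds_iff_ball.1 (hev.and (isOpen_ball.mem_nhds hz))
    have h1 : closedBall (w + (h' : ℂ) * z) (h' * (r / 2)) ⊆ closedBall w (10 * h) := by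
      intro y hy
      obtain ⟨x, rfl⟩ : ∃ x : ℂ, y = w + (h' : ℂ) * x := ⟨(y - w) / h', by field_simp; ring⟩
      have h2 : x ∈ closedBall z (r / 2) := by
        have := (afc_mem (p := w) (c := z) (r := r / 2) hα0 (y := x)).1
        rw [hnα] at this
        exact this hy
      exact hmem x (ball_subset_ball hR.le (hrb x (closedBall_subset_ball (by linarith) h2)).2)
    have h2 := hsn _ _ (by positivity) h1
    have h3 : sn u (closedBall (w + (h' : ℂ) * z) (h' * (r / 2))) ≤ 0 := by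
      refine csSup_le ⟨_, _, mem_closedBall_self (by positivity), rfl⟩ ?_
      rintro _ ⟨y, hy, rfl⟩
      obtain ⟨x, rfl⟩ : ∃ x : ℂ, y = w + (h' : ℂ) * x := ⟨(y - w) / h', by field_simp; ring⟩
      have h2 : x ∈ closedBall z (r / 2) := by
        have := (afc_mem (p := w) (c := z) (r := r / 2) hα0 (y := x)).1
        rw [hnα] at this
        exact this hy
      have h4 := hrb x (closedBall_subset_ball (by linarith) h2)
      have h5 := heqOn h4.2
      rw [h4.1, hv₀] at h5
      simp only at h5 ⊢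
      rw [← h5, abs_zero]
    linarith
  · rw [hvz₀]
    intro h0
    rw [h0, abs_zero] at hmax
    exact hs.ne hmax

theorem te7 (h2 : E2) (h5 : E5) : E7 := by
  obtain ⟨C, hC, H⟩ := scaled h2 h5
  refine ⟨C, hC, ?_⟩
  intro w h q u hh hu hsn
  have hcu : ∀ z ∈ closedBall w (10 * h), ContinuousAt u z := fun z hz => (hu z hz).1.continuousAt
  have hcu1 : ∀ z ∈ closedBall w h, ContinuousAt u z := fun z hz =>
    hcu z (closedBall_subset_closedBall (by linarith) hz)
  set S : ℝ := sn u (closedBall w (10 * h)) with hSd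
  have hS : 0 < S := hsn w _ (by linarith) le_rfl
  have hs : 0 < sn u (closedBall w h) := hsn w _ hh (closedBall_subset_closedBall (by linarith))
  obtain ⟨t, ht⟩ : ∃ t : ℕ → ℝ, t = fun n : ℕ => 1 - 1 / ((n : ℝ) + 2) := ⟨_, rfl⟩
  have ht0 : ∀ n, 0 < t n := by
    intro n
    rw [ht]
    have : 1 / ((n : ℝ) + 2) < 1 := by
      rw [div_lt_one (by positivity)]
      linarith [(Nat.cast_nonneg n : (0 : ℝ) ≤ n)]
    simp only
    linarith
  have ht1 : ∀ n, t n < 1 := by
    intro n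
    rw [ht]
    have : 0 < 1 / ((n : ℝ) + 2) := by positivity
    simp only
    linarith
  have htm : Monotone t := by
    intro m n hmn
    rw [ht]
    have h1 : (m : ℝ) ≤ n := by exact_mod_cast hmn
    have : 1 / ((n : ℝ) + 2) ≤ 1 / ((m : ℝ) + 2) := by gcongr
    simp only
    linarith
  have htl : Tendsto t atTop (𝓝 1) := by
    rw [ht]
    have h1 : Tendsto (fun n : ℕ => 1 / ((n : ℝ) + 2)) atTop (𝓝 0) := by
      have h2 := tendsto_one_div_add_atTop_nhds_zero_nat (𝕜 := ℝ)
      have h3 := h2.comp (tendsto_add_atTop_nat 1)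
      refine h3.congr (fun n => ?_)
      simp only [Function.comp]
      push_cast
      ring
    simpa using (tendsto_const_nhds (x := (1 : ℝ))).sub h1
  -- the supremum on the smaller discs
  have hsl : Tendsto (fun n => sn u (closedBall w (t n * h))) atTop (𝓝 (sn u (closedBall w h))) := by
    obtain ⟨z₁, hz₁, hmax⟩ := sn_max hh.le hcu1
    have h1 : Tendsto (fun n => |u (w + (t n : ℂ) * (z₁ - w))|) atTop (𝓝 |u z₁|) := by
      have h2 : Tendsto (fun n => w + (t n : ℂ) * (z₁ - w)) atTop (𝓝 z₁) := by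
        have h3 : Tendsto (fun n => ((t n : ℝ) : ℂ)) atTop (𝓝 ((1 : ℝ) : ℂ)) :=
          (Complex.continuous_ofReal.tendsto 1).comp htl
        have h4 := (tendsto_const_nhds (x := w)).add (h3.mul_const (z₁ - w))
        have h5 : w + ((1 : ℝ) : ℂ) * (z₁ - w) = z₁ := by
          push_cast
          ring
        rwa [h5] at h4
      exact ((hcu1 z₁ hz₁).abs.tendsto).comp h2
    rw [hmax] at h1
    refine tendsto_of_tendsto_of_tendsto_of_le_of_le h1 tendsto_const_nhds (fun n => ?_) (fun n => ?_)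
    · have h2 : ∀ z ∈ closedBall w (t n * h), ContinuousAt u z := fun z hz =>
        hcu1 z (closedBall_subset_closedBall (by nlinarith [ht0 n, ht1 n]) hz)
      refine le_sn' h2 ?_
      rw [mem_closedBall, dist_eq_norm, add_sub_cancel_left, norm_mul, Complex.norm_real,
        Real.norm_of_nonneg (ht0 n).le]
      have := mem_closedBall.1 hz₁
      rw [dist_eq_norm] at this
      exact mul_le_mul_of_nonneg_left this (ht0 n).le
    · exact sn_mono' (by nlinarith [ht0 n]) (by nlinarith [ht0 n, ht1 n]) hcu1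
  have hlim : Tendsto (fun n => ENNReal.ofReal (C * h * (1 + Real.log (S / sn u (closedBall w (t n * h))))))
      atTop (𝓝 (ENNReal.ofReal (C * h * (1 + Real.log (S / sn u (closedBall w h)))))) := by
    refine (ENNReal.continuous_ofReal.tendsto _).comp ?_
    refine Tendsto.const_mul _ (Tendsto.const_add _ ?_)
    exact ((Real.continuousAt_log (by positivity)).tendsto).comp
      ((tendsto_const_nhds (x := S)).div hsl hs.ne')
  have hbound : ∀ n, μH[1] {z : ℂ | z ∈ ball w (t n * h) ∧ u z = 0} ≤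
      ENNReal.ofReal (C * h * (1 + Real.log (S / sn u (closedBall w (t n * h))))) := by
    intro n
    have hn0 : 0 < t n * h := mul_pos (ht0 n) hh
    have hn1 : t n * h < h := by nlinarith [ht1 n]
    refine (H w h (t n * h) q u hn0 hn1 hu hsn).trans (ENNReal.ofReal_le_ofReal ?_)
    have hsn' : 0 < sn u (closedBall w (t n * h)) :=
      hsn w _ hn0 (closedBall_subset_closedBall (by linarith))
    have hcn : ∀ z ∈ closedBall w (10 * (t n * h)), ContinuousAt u z := fun z hz =>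
      hcu z (closedBall_subset_closedBall (by linarith) hz)
    have hSn : 0 < sn u (closedBall w (10 * (t n * h))) :=
      hsn w _ (by linarith) (closedBall_subset_closedBall (by linarith))
    have l0 : 0 ≤ Real.log (sn u (closedBall w (10 * (t n * h))) / sn u (closedBall w (t n * h))) := by
      refine Real.log_nonneg ?_
      rw [le_div_iff₀ hsn', one_mul]
      exact sn_mono' hn0.le (by linarith) hcn
    have l1 : Real.log (sn u (closedBall w (10 * (t n * h))) / sn u (closedBall w (t n * h))) ≤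
        Real.log (S / sn u (closedBall w (t n * h))) := by
      refine Real.log_le_log (by positivity) ?_
      gcongr
      exact sn_mono' (by linarith) (by linarith) hcu
    have l2 : C * (t n * h) ≤ C * h := by nlinarith
    calc C * (t n * h) * (1 + Real.log (sn u (closedBall w (10 * (t n * h))) /
          sn u (closedBall w (t n * h)))) ≤ C * h * (1 + Real.log (sn u (closedBall w (10 * (t n * h))) /
          sn u (closedBall w (t n * h)))) := mul_le_mul_of_nonneg_right l2 (by linarith)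
      _ ≤ _ := mul_le_mul_of_nonneg_left (by linarith) (by positivity)
  have hmono : Monotone (fun n => {z : ℂ | z ∈ ball w (t n * h) ∧ u z = 0}) := by
    intro m n hmn z hz
    exact ⟨ball_subset_ball (mul_le_mul_of_nonneg_right (htm hmn) hh.le) hz.1, hz.2⟩
  have hunion : {z : ℂ | z ∈ ball w h ∧ u z = 0} ⊆ ⋃ n, {z : ℂ | z ∈ ball w (t n * h) ∧ u z = 0} := by
    rintro z ⟨hz, hz0⟩
    have h1 : Tendsto (fun n => t n * h) atTop (𝓝 h) := by
      simpa using htl.mul_const h
    obtain ⟨n, hn⟩ := (h1.eventually (eventually_gt_nhds (mem_ball.1 hz))).exists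
    exact mem_iUnion.2 ⟨n, hn, hz0⟩
  refine (measure_mono hunion).trans ?_
  rw [hmono.measure_iUnion]
  refine iSup_le (fun m => ?_)
  refine ge_of_tendsto hlim ?_
  filter_upwards [eventually_ge_atTop m] with n hn
  exact (measure_mono (hmono hn)).trans (hbound n)

end

end Run7.h159.E7
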