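import Pool.Agent.Run7.h159.QMain
import Pool.Agent.H640R2.PhaseMuC

set_option autoImplicit false

open Complex ContinuousLinearMap

namespace Run7.h159.QN

variable {H : Type*} [NormedAddCommGroup H] [InnerProductSpace ℂ H] [CompleteSpace H]
  [FiniteDimensional ℂ H]

omit [CompleteSpace H] [FiniteDimensional ℂ H] in
theorem exists_pair (hdim : 2 ≤ Module.finrank ℂ H) (q κ : ℝ) (hqκ : q ^ 2 + κ ^ 2 = 1) :
    ∃ x y : H, ‖x‖ = 1 ∧ ‖y‖ = 1 ∧ inner ℂ y x = (q : ℂ) := by
  have hfin : FiniteDimensional ℂ H := Module.finite_of_finrank_pos (by omega)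
  set b := stdOrthonormalBasis ℂ H with hb
  have h0 : (0 : ℕ) < Module.finrank ℂ H := by omega
  have h1 : (1 : ℕ) < Module.finrank ℂ H := by omega
  set e0 : H := b ⟨0, h0⟩ with he0
  set e1 : H := b ⟨1, h1⟩ with he1
  have n0 : ‖e0‖ = 1 := b.orthonormal.1 _
  have n1 : ‖e1‖ = 1 := b.orthonormal.1 _
  have o01 : inner ℂ e0 e1 = 0 := b.orthonormal.2 (by simp)
  have i00 : inner ℂ e0 e0 = (1 : ℂ) := by rw [inner_self_eq_norm_sq_to_K, n0]; simp
  have i10 : inner ℂ e1 e0 = 0 := by rw [← inner_conj_symm, o01, map_zero]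
  refine ⟨e0, (q : ℂ) • e0 + (κ : ℂ) • e1, n0, ?_, ?_⟩
  · have h2 : ‖(q : ℂ) • e0 + (κ : ℂ) • e1‖ ^ 2 = 1 := by
      rw [norm_add_sq (𝕜 := ℂ), inner_smul_left, inner_smul_right, o01, mul_zero, mul_zero,
        norm_smul, norm_smul, n0, n1, Complex.norm_real, Complex.norm_real, mul_one, mul_one,
        Real.norm_eq_abs, Real.norm_eq_abs, sq_abs, sq_abs]
      simp
      linarith
    exact (pow_eq_one_iff_of_nonneg (norm_nonneg _) two_ne_zero).mp h2
  · rw [inner_add_left, inner_smul_left, inner_smul_left, i00, i10, conj_ofReal]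
    simp

/-- Minimal disc: for `0 < q < 1` there is `c` such that the norm `‖A - c‖` is attained at a pair
`x, y` with `⟪y, x⟫ = q`. -/
theorem exists_disc (hdim : 2 ≤ Module.finrank ℂ H) (A : H →L[ℂ] H) (q κ : ℝ) (hq0 : 0 < q)
    (hq1 : q < 1) (hqκ : q ^ 2 + κ ^ 2 = 1) :
    ∃ c : ℂ, ‖c‖ ≤ 2 * ‖A‖ / (1 - q) ∧ ∃ x y : H, ‖x‖ = 1 ∧ ‖y‖ = 1 ∧ inner ℂ y x = (q : ℂ) ∧
      inner ℂ y ((A - c • (1 : H →L[ℂ] H)) x) = (‖A - c • (1 : H →L[ℂ] H)‖ : ℂ) := by
  have hnt : Nontrivial H := Module.nontrivial_of_finrank_pos (R := ℂ) (by omega)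
  have h1q : 0 < 1 - q := by linarith
  set g : ℂ → ℝ := fun c => q * c.re + ‖A - c • (1 : H →L[ℂ] H)‖ with hg
  have hgc : Continuous g := by
    rw [hg]
    exact (continuous_const.mul Complex.continuous_re).add (by fun_prop)
  have hnorm1 : ‖(1 : H →L[ℂ] H)‖ = 1 := norm_one
  have hglow : ∀ c : ℂ, (1 - q) * ‖c‖ - ‖A‖ ≤ g c := by
    intro c
    have e1 : ‖c‖ ≤ ‖A - c • (1 : H →L[ℂ] H)‖ + ‖A‖ := by
      have : c • (1 : H →L[ℂ] H) = A - (A - c • (1 : H →L[ℂ] H)) := by abel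
      have h2 : ‖c • (1 : H →L[ℂ] H)‖ = ‖c‖ := by rw [norm_smul, hnorm1, mul_one]
      rw [← h2]
      conv_lhs => rw [this]
      refine (norm_sub_le _ _).trans ?_
      linarith
    have e2 : -‖c‖ ≤ c.re := (abs_le.mp (abs_re_le_norm c)).1
    rw [hg]
    simp only
    nlinarith
  obtain ⟨c, hcmin⟩ : ∃ c, ∀ c', g c ≤ g c' := by
    apply hgc.exists_forall_le
    apply Filter.tendsto_atTop_mono hglow
    apply Filter.tendsto_atTop_add_const_right
    exact (tendsto_norm_cocompact_atTop (E := ℂ)).const_mul_atTop h1q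
  have hcb : ‖c‖ ≤ 2 * ‖A‖ / (1 - q) := by
    rw [le_div_iff₀ h1q]
    have h1 := hglow c
    have h2 := hcmin 0
    have h3 : g 0 = ‖A‖ := by rw [hg]; simp
    linarith
  refine ⟨c, hcb, ?_⟩
  set T : H →L[ℂ] H := A - c • (1 : H →L[ℂ] H) with hT
  set N := ‖T‖ with hN
  by_cases hT0 : T = 0
  · obtain ⟨x, y, hx, hy, hxy⟩ := exists_pair (H := H) hdim q κ hqκ
    refine ⟨x, y, hx, hy, hxy, ?_⟩
    rw [hN, hT0]
    simp
  have hN0 : 0 < N := norm_pos_iff.mpr hT0
  -- the top eigenspace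
  set E : Submodule ℂ H := LinearMap.ker ((star T * T - ((N ^ 2 : ℝ) : ℂ) • (1 : H →L[ℂ] H) :
    H →L[ℂ] H) : H →ₗ[ℂ] H) with hE
  have hEmem : ∀ x : H, x ∈ E ↔ (star T) (T x) = ((N ^ 2 : ℝ) : ℂ) • x := by
    intro x
    rw [hE, LinearMap.mem_ker]
    exact sub_eq_zero
  have hatt : ∀ x : H, ‖x‖ = 1 → ‖T x‖ = N → x ∈ E := by
    intro x hx hTx
    rw [hEmem]
    exact star_sing T x hx hTx
  have hEn : ∀ x : H, x ∈ E → ‖x‖ = 1 → ‖T x‖ = N := by
    intro x hxE hx
    have h1 : inner ℂ (T x) (T x) = ((N ^ 2 : ℝ) : ℂ) := by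
      have h2 : inner ℂ (T x) (T x) = inner ℂ x ((star T) (T x)) := by
        rw [ContinuousLinearMap.star_eq_adjoint, adjoint_inner_right]
      rw [h2, (hEmem x).mp hxE, inner_smul_right, inner_self_eq_norm_sq_to_K, hx]
      simp
    rw [inner_self_eq_norm_sq_to_K] at h1
    have h3 : ‖T x‖ ^ 2 = N ^ 2 := by
      have h4 : ((‖T x‖ ^ 2 : ℝ) : ℂ) = ((N ^ 2 : ℝ) : ℂ) := by rw [← h1]; push_cast; rfl
      exact Complex.ofReal_injective h4
    exact (pow_left_inj₀ (norm_nonneg _) hN0.le two_ne_zero).mp h3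
  -- compression
  set TE : E →L[ℂ] E := (E.orthogonalProjectionOnto ∘L T) ∘L E.subtypeL with hTE
  have hTEin : ∀ x : E, inner ℂ x (TE x) = inner ℂ (x : H) (T (x : H)) := by
    intro x
    have h1 : TE x = E.orthogonalProjectionOnto (T (x : H)) := rfl
    rw [h1]
    exact Submodule.inner_orthogonalProjectionOnto_eq_of_mem_left x (T (x : H))
  set W : Set ℂ := {z : ℂ | ∃ x : E, ‖x‖ = 1 ∧ inner ℂ x (TE x) = z} with hW
  have hWconv : Convex ℝ W := H640R2.PhaseMu.toeplitz_hausdorff TE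
  have hWcl : IsClosed W := by
    have hc : IsCompact (Metric.sphere (0 : E) 1) := by
      have : ProperSpace E := FiniteDimensional.proper ℂ E
      exact isCompact_sphere 0 1
    have : W = (fun x : E => inner ℂ x (TE x)) '' (Metric.sphere (0 : E) 1) := by
      ext z
      constructor
      · rintro ⟨x, hx, rfl⟩
        exact ⟨x, by simpa using hx, rfl⟩
      · rintro ⟨x, hx, rfl⟩
        exact ⟨x, by simpa using hx, rfl⟩
    rw [this]
    exact (hc.image (by fun_prop)).isClosed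
  have hmem : ((q * N : ℝ) : ℂ) ∈ W := by
    by_contra hnot
    obtain ⟨f, u, hfu, hfW⟩ :=
      RCLike.geometric_hahn_banach_point_closed (𝕜 := ℂ) hWconv hWcl hnot
    set d : ℂ := f 1 with hd
    have hfz : ∀ z : ℂ, f z = z * d := by
      intro z
      have : z = z • (1 : ℂ) := by simp
      conv_lhs => rw [this, map_smul]
      rfl
    set u0 : ℝ := q * N * d.re with hu0
    have hu0u : u0 < u := by
      have h1 : RCLike.re (f ((q * N : ℝ) : ℂ)) = u0 := by
        rw [hfz]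
        exact Complex.re_ofReal_mul _ _
      rwa [h1] at hfu
    have hWu : ∀ x : H, x ∈ E → ‖x‖ = 1 → u < (inner ℂ x (T x) * d).re := by
      intro x hxE hx
      have h1 := hfW (inner ℂ x (T x)) ⟨⟨x, hxE⟩, hx, hTEin ⟨x, hxE⟩⟩
      rw [hfz] at h1
      exact h1
    set u' : ℝ := (u0 + u) / 2 with hu'
    have hu'1 : u0 < u' := by rw [hu']; linarith
    have hu'2 : u' < u := by rw [hu']; linarith
    have hprop : ProperSpace H := FiniteDimensional.proper ℂ H
    set K0 : Set H := Metric.sphere (0 : H) 1 ∩ {x : H | (inner ℂ x (T x) * d).re ≤ u'} with hK0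
    have hK0c : IsCompact K0 := by
      apply (isCompact_sphere (0 : H) 1).inter_right
      apply isClosed_le
      · exact Complex.continuous_re.comp (by fun_prop)
      · exact continuous_const
    obtain ⟨N0, hN00, hN0N, hN0b⟩ : ∃ N0 : ℝ, 0 ≤ N0 ∧ N0 < N ∧ ∀ x ∈ K0, ‖T x‖ ≤ N0 := by
      by_cases hne : K0.Nonempty
      · obtain ⟨x0, hx0, hmax⟩ := hK0c.exists_isMaxOn hne (f := fun x => ‖T x‖) (by fun_prop)
        refine ⟨‖T x0‖, norm_nonneg _, ?_, fun x hx => hmax hx⟩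
        have hx01 : ‖x0‖ = 1 := by simpa using hx0.1
        have h1 : ‖T x0‖ ≤ N := by
          have := T.le_opNorm x0
          rwa [hx01, mul_one] at this
        refine lt_of_le_of_ne h1 fun h2 => ?_
        have h3 := hWu x0 (hatt x0 hx01 h2) hx01
        have h4 : (inner ℂ x0 (T x0) * d).re ≤ u' := hx0.2
        linarith
      · refine ⟨0, le_rfl, hN0, fun x hx => ?_⟩
        exact absurd ⟨x, hx⟩ hne
    obtain ⟨ε, hε0, hε1, hε2⟩ : ∃ ε : ℝ, 0 < ε ∧ ε * (‖d‖ * (1 + q)) < N - N0 ∧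
        ε * ‖d‖ ^ 2 < 2 * (u' - u0) := by
      have hNN : 0 < N - N0 := by linarith
      have huu : 0 < u' - u0 := by linarith
      refine ⟨min ((N - N0) / (2 * (‖d‖ * (1 + q) + 1))) ((u' - u0) / (‖d‖ ^ 2 + 1)), ?_, ?_, ?_⟩
      · apply lt_min <;> positivity
      · calc min ((N - N0) / (2 * (‖d‖ * (1 + q) + 1))) ((u' - u0) / (‖d‖ ^ 2 + 1)) *
              (‖d‖ * (1 + q)) ≤ ((N - N0) / (2 * (‖d‖ * (1 + q) + 1))) * (‖d‖ * (1 + q)) := by
                gcongr; exact min_le_left _ _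
          _ = (N - N0) * ((‖d‖ * (1 + q)) / (2 * (‖d‖ * (1 + q) + 1))) := by ring
          _ < (N - N0) * 1 := by
              apply mul_lt_mul_of_pos_left _ hNN
              rw [div_lt_one (by positivity)]
              have : 0 ≤ ‖d‖ * (1 + q) := by positivity
              linarith
          _ = N - N0 := mul_one _
      · calc min ((N - N0) / (2 * (‖d‖ * (1 + q) + 1))) ((u' - u0) / (‖d‖ ^ 2 + 1)) * ‖d‖ ^ 2 ≤
              ((u' - u0) / (‖d‖ ^ 2 + 1)) * ‖d‖ ^ 2 := by gcongr; exact min_le_right _ _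
          _ = (u' - u0) * (‖d‖ ^ 2 / (‖d‖ ^ 2 + 1)) := by ring
          _ ≤ (u' - u0) * 1 := by
              apply mul_le_mul_of_nonneg_left _ huu.le
              rw [div_le_one (by positivity)]
              linarith
          _ < 2 * (u' - u0) := by linarith
    set e : ℂ := (ε : ℂ) * (starRingEnd ℂ) d with he
    have hen : ‖e‖ = ε * ‖d‖ := by
      rw [he, norm_mul, RCLike.norm_conj, Complex.norm_real, Real.norm_of_nonneg hε0.le]
    have here : e.re = ε * d.re := by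
      rw [he, re_ofReal_mul, conj_re]
    obtain ⟨x, hx, hTx⟩ := norm_attained (T - e • (1 : H →L[ℂ] H))
    set n1 := ‖T - e • (1 : H →L[ℂ] H)‖ with hn1
    have hmin := hcmin (c + e)
    have hg1 : g (c + e) = q * (c.re + ε * d.re) + n1 := by
      rw [hg]
      simp only
      rw [add_re, here, hn1, hT, add_smul, sub_sub]
    have hg2 : g c = q * c.re + N := rfl
    rw [hg1, hg2] at hmin
    have hn1low : N - ε * q * d.re ≤ n1 := by linarith
    have hdre : |d.re| ≤ ‖d‖ := abs_re_le_norm d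
    have hxv : (T - e • (1 : H →L[ℂ] H)) x = T x - e • x := rfl
    by_cases hxK : x ∈ K0
    · have h1 : n1 ≤ N0 + ε * ‖d‖ := by
        rw [← hTx, hxv]
        refine (norm_sub_le _ _).trans ?_
        rw [norm_smul, hx, mul_one, hen]
        linarith [hN0b x hxK]
      have h2 : ε * q * d.re ≤ ε * q * ‖d‖ := by
        have := (abs_le.mp hdre).2
        gcongr
      nlinarith
    · have h1 : u' < (inner ℂ x (T x) * d).re := by
        by_contra hcon
        push Not at hcon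
        exact hxK ⟨by simpa using hx, hcon⟩
      have h2 : n1 ^ 2 = ‖T x‖ ^ 2 - 2 * (ε * (inner ℂ x (T x) * d).re) + ε ^ 2 * ‖d‖ ^ 2 := by
        rw [← hTx, hxv, norm_sub_sq (𝕜 := ℂ), inner_smul_right, norm_smul, hx, mul_one, hen, mul_pow]
        have h3 : RCLike.re (e * inner ℂ (T x) x) = ε * (inner ℂ x (T x) * d).re := by
          have h4 : e * inner ℂ (T x) x = (ε : ℂ) * (starRingEnd ℂ) (inner ℂ x (T x) * d) := by
            rw [map_mul, inner_conj_symm, he]; ring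
          rw [h4]
          have : RCLike.re ((ε : ℂ) * (starRingEnd ℂ) (inner ℂ x (T x) * d)) =
              ε * ((starRingEnd ℂ) (inner ℂ x (T x) * d)).re := Complex.re_ofReal_mul _ _
          rw [this, conj_re]
        rw [h3]
      have h3 : ‖T x‖ ≤ N := by
        have := T.le_opNorm x
        rwa [hx, mul_one] at this
      have h4 : ‖T x‖ ^ 2 ≤ N ^ 2 := by gcongr
      have h5 : 0 ≤ N - ε * q * d.re := by
        have h6 : ε * q * d.re ≤ ε * q * ‖d‖ := by
          have := (abs_le.mp hdre).2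
          gcongr
        have h7 : ε * q * ‖d‖ ≤ ε * (‖d‖ * (1 + q)) := by
          have : 0 ≤ ε * ‖d‖ := by positivity
          nlinarith
        linarith
      have h6 : (N - ε * q * d.re) ^ 2 ≤ n1 ^ 2 := by gcongr
      have h7 : ε * u' < ε * (inner ℂ x (T x) * d).re := by gcongr
      have h8 : 0 ≤ (ε * q * d.re) ^ 2 := sq_nonneg _
      have h9 : ε * (2 * (u' - u0)) < ε * (ε * ‖d‖ ^ 2) := by
        rw [hu0]
        nlinarith
      have h10 := lt_of_mul_lt_mul_left h9 hε0.le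
      linarith
  obtain ⟨xE, hxE1, hxE2⟩ := hmem
  set x : H := (xE : H) with hx
  have hx1 : ‖x‖ = 1 := hxE1
  have hTx : ‖T x‖ = N := hEn x xE.2 hx1
  have hin : inner ℂ x (T x) = ((q * N : ℝ) : ℂ) := by rw [← hxE2]; exact (hTEin xE).symm
  refine ⟨x, ((N⁻¹ : ℝ) : ℂ) • T x, hx1, ?_, ?_, ?_⟩
  · rw [norm_smul, Complex.norm_real, Real.norm_of_nonneg (by positivity), hTx,
      inv_mul_cancel₀ hN0.ne']
  · rw [inner_smul_left, conj_ofReal, ← inner_conj_symm, hin, conj_ofReal, ← ofReal_mul]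
    congr 1
    field_simp
  · rw [inner_smul_left, conj_ofReal, inner_self_eq_norm_sq_to_K, hTx]
    have : (((N⁻¹ : ℝ) : ℂ) * (N : ℂ) ^ 2) = ((N⁻¹ * N ^ 2 : ℝ) : ℂ) := by push_cast; ring
    have h2 : N⁻¹ * N ^ 2 = N := by field_simp
    rw [h2] at this
    exact this

end Run7.h159.QN
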