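import Mathlib

set_option autoImplicit false

open ContinuousLinearMap

namespace Run7.h159.QN

variable {H : Type*} [NormedAddCommGroup H] [InnerProductSpace ℂ H] [CompleteSpace H]

/-- Growth recursion: `γ (k+1) ≤ Q γ k + Q D/(Q-1)`, `γ` bounded below, forces
`γ 1 + Q D / (Q-1)^2 ≥ 0`. -/
theorem recursion_bound (Q D B : ℝ) (γ : ℕ → ℝ) (hQ : 1 < Q)
    (hrec : ∀ k, 1 ≤ k → γ (k + 1) ≤ Q * γ k + Q * D / (Q - 1))
    (hlow : ∀ k, -B ≤ γ (k + 1)) : 0 ≤ γ 1 + Q * D / (Q - 1) ^ 2 := by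
  by_contra hneg
  push Not at hneg
  set c := Q * D / (Q - 1) ^ 2 with hc
  have hQ1 : (0 : ℝ) < Q - 1 := by linarith
  have hstep : ∀ k, 1 ≤ k → γ (k + 1) + c ≤ Q * (γ k + c) := by
    intro k hk
    have h := hrec k hk
    have h3 : Q * c - c = Q * D / (Q - 1) := by
      rw [hc]; field_simp
    linarith
  have hpow : ∀ k, γ (k + 1) + c ≤ Q ^ k * (γ 1 + c) := by
    intro k
    induction k with
    | zero => simp
    | succ k ih =>
      calc γ (k + 1 + 1) + c ≤ Q * (γ (k + 1) + c) := hstep (k + 1) (by omega)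
        _ ≤ Q * (Q ^ k * (γ 1 + c)) := by gcongr
        _ = Q ^ (k + 1) * (γ 1 + c) := by ring
  obtain ⟨n, hn⟩ := pow_unbounded_of_one_lt ((B + |c| + 1) / (-(γ 1 + c))) hQ
  have h1 := hpow n
  have h2 := hlow n
  rw [div_lt_iff₀ (by linarith)] at hn
  have h3 := neg_abs_le c
  nlinarith

/-- The reflection `v ↦ v - 2 ⟨y, v⟩ y`. -/
noncomputable def refl (y : H) : H →L[ℂ] H :=
  1 - (2 : ℂ) • ((innerSL ℂ y).smulRight y)

omit [CompleteSpace H] in
theorem refl_apply (y v : H) : refl y v = v - (2 * inner ℂ y v : ℂ) • y := by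
  simp [refl, smul_smul]

omit [CompleteSpace H] in
theorem refl_norm (y : H) (hy : ‖y‖ = 1) (v : H) : ‖refl y v‖ ≤ ‖v‖ := by
  have h : ‖refl y v‖ ^ 2 = ‖v‖ ^ 2 := by
    rw [refl_apply, norm_sub_sq (𝕜 := ℂ), inner_smul_right, norm_smul, hy, mul_one, norm_mul]
    have h1 : RCLike.re (2 * inner ℂ y v * inner ℂ v y) = 2 * ‖inner ℂ y v‖ ^ 2 := by
      have h2 : inner ℂ v y = (starRingEnd ℂ) (inner ℂ y v) := (inner_conj_symm v y).symm
      rw [h2, mul_assoc, Complex.mul_conj, Complex.normSq_eq_norm_sq]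
      have : (2 * ((‖inner ℂ y v‖ ^ 2 : ℝ) : ℂ) : ℂ) = ((2 * ‖inner ℂ y v‖ ^ 2 : ℝ) : ℂ) := by
        push_cast; ring
      rw [this]
      exact Complex.ofReal_re _
    rw [h1]
    have h3 : ‖(2 : ℂ)‖ = 2 := by simp
    rw [h3]
    ring
  exact le_of_eq (by
    have := congrArg Real.sqrt h
    rwa [Real.sqrt_sq (norm_nonneg _), Real.sqrt_sq (norm_nonneg _)] at this)

omit [CompleteSpace H] in
theorem refl_refl (y : H) (hy : ‖y‖ = 1) (v : H) : refl y (refl y v) = v := by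
  rw [refl_apply, refl_apply, inner_sub_right, inner_smul_right]
  have : inner ℂ y y = (1 : ℂ) := by rw [inner_self_eq_norm_sq_to_K, hy]; simp
  rw [this, mul_one, sub_sub, ← add_smul]
  have : (2 * inner ℂ y v + 2 * (inner ℂ y v - 2 * inner ℂ y v) : ℂ) = 0 := by ring
  rw [this, zero_smul, sub_zero]

/-- the twisting operator `L v = v - κ U v` with `U` the reflection -/
noncomputable def Lw (κ : ℝ) (U : H →L[ℂ] H) (v : H) : H := v - (κ : ℂ) • U v

end Run7.h159.QN
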