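import Pool.Agent.Run7.h159.QCore

set_option autoImplicit false

open ContinuousLinearMap

namespace Run7.h159.QN

variable {H : Type*} [NormedAddCommGroup H] [InnerProductSpace ℂ H] [CompleteSpace H]

theorem qcore (T : H →L[ℂ] H) (G : ℕ → H →L[ℂ] H) (hcomm : ∀ n, T * G n = G n * T)
    (K1 : ℝ) (hTb : ∀ n, ‖T ^ n‖ ≤ K1) (hGb : ∀ n, ‖G n‖ ≤ K1) (κ m : ℝ) (hκ0 : 0 ≤ κ)
    (hκ1 : κ < 1) (hm : 0 < m) (hrel : 1 + κ = (1 - κ) * m ^ 2) (x y : H) (hx : ‖x‖ = 1)
    (hy : ‖y‖ = 1) (K : ℝ) (hK : 0 < K) (hTx : T x = (K : ℂ) • y) (hTy : (star T) y = (K : ℂ) • x)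
    (hpos : ∀ U : H →L[ℂ] H, (∀ v, ‖U v‖ ≤ ‖v‖) → ∀ k, 1 ≤ k → ∀ a b c : H,
      0 ≤ (inner ℂ (Lw κ U a) a).re + (inner ℂ (Lw κ U b) b).re + (inner ℂ (Lw κ U c) c).re
        + ((inner ℂ (Lw κ U b) ((T ^ k) a)).re + (inner ℂ (Lw κ U a) ((G k) b)).re)
        + ((inner ℂ (Lw κ U c) ((T ^ (k + 1)) a)).re + (inner ℂ (Lw κ U a) ((G (k + 1)) c)).re)
        + ((inner ℂ (Lw κ U c) (T b)).re + (inner ℂ (Lw κ U b) ((G 1) c)).re)) :
    m * K ≤ 2 + ((2 * κ + 2 * κ * K1 ^ 2 * (m * K1) + (2 * κ / m) * K1) / (1 - κ)) *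
      ‖inner ℂ y x‖ := by
  have hK10 : 0 ≤ K1 := (norm_nonneg _).trans (hTb 0)
  have h1κ : 0 < 1 - κ := by linarith
  set ω : ℂ := inner ℂ y x with hω
  set w : ℝ := ‖ω‖ with hw
  have hw0 : 0 ≤ w := norm_nonneg _
  have hw1 : w ≤ 1 := by
    have := norm_inner_le_norm (𝕜 := ℂ) y x
    rw [hx, hy, mul_one] at this
    exact this
  set E : ℝ := (2 * κ + 2 * κ * K1 ^ 2 * (m * K1) + (2 * κ / m) * K1) * w with hE
  have hE0 : 0 ≤ E := by positivity
  have hgoal : (2 * κ + 2 * κ * K1 ^ 2 * (m * K1) + (2 * κ / m) * K1) / (1 - κ) * w =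
      E / (1 - κ) := by rw [hE]; ring
  rw [hgoal]
  set e : ℝ := E / (1 - κ) with he
  have he0 : 0 ≤ e := by positivity
  by_cases hQ2 : m * K ≤ 2
  · linarith
  push Not at hQ2
  set Q := m * K with hQ
  have hQ0 : 0 < Q := by linarith
  have hQ1 : 0 < Q - 1 := by linarith
  -- basic inner products
  have hxx : inner ℂ x x = (1 : ℂ) := by rw [inner_self_eq_norm_sq_to_K, hx]; simp
  have hyy : inner ℂ y y = (1 : ℂ) := by rw [inner_self_eq_norm_sq_to_K, hy]; simp
  have hadj : ∀ (S : H →L[ℂ] H) (u v : H), inner ℂ ((star S) u) v = inner ℂ u (S v) := by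
    intro S u v; rw [ContinuousLinearMap.star_eq_adjoint, adjoint_inner_left]
  have hmul : ∀ (S R : H →L[ℂ] H) (u : H), (S * R) u = S (R u) := fun _ _ _ => rfl
  set U : H →L[ℂ] H := refl y with hU
  have hUn : ∀ v, ‖U v‖ ≤ ‖v‖ := refl_norm y hy
  have hKT : K ≤ K1 := by
    have h1 : ‖T x‖ ≤ ‖T‖ * ‖x‖ := T.le_opNorm x
    rw [hTx, norm_smul, hy, hx, Complex.norm_real, Real.norm_of_nonneg hK.le] at h1
    have h2 := hTb 1
    rw [pow_one] at h2
    linarith
  have hUx : U x = x - (2 * ω) • y := refl_apply y x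
  have hUy : U y = -y := by
    rw [hU, refl_apply, hyy, mul_one, two_smul]; abel
  have hLx : Lw κ U x = ((1 - κ : ℝ) : ℂ) • x + (2 * (κ : ℂ) * ω) • y := by
    unfold Lw
    rw [hUx, smul_sub, smul_smul]
    push_cast
    rw [sub_smul, one_smul]
    have : (κ : ℂ) * (2 * ω) = 2 * (κ : ℂ) * ω := by ring
    rw [this]
    abel
  have hLy : Lw κ U y = ((1 + κ : ℝ) : ℂ) • y := by
    unfold Lw
    rw [hUy]
    push_cast
    rw [add_smul, one_smul, smul_neg]
    abel
  have hLsmul : ∀ (t : ℂ) (v : H), Lw κ U (t • v) = t • Lw κ U v := by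
    intro t v
    unfold Lw
    rw [map_smul, smul_sub, smul_comm]
  have hL0 : Lw κ U 0 = 0 := by unfold Lw; simp
  -- the sequences
  set z : ℕ → H := fun k => ((star T) ^ k) x with hz
  set γ : ℕ → ℝ := fun k => (inner ℂ x ((T ^ k * G k) x)).re with hγ
  have hzinner : ∀ k (v : H), inner ℂ (z k) v = inner ℂ x ((T ^ k) v) := by
    intro k v
    rw [hz]
    simp only
    rw [← star_pow, hadj]
  have hznorm : ∀ k, ‖z k‖ ≤ K1 := by
    intro k
    rw [hz]
    simp only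
    rw [← star_pow]
    refine ((star (T ^ k)).le_opNorm x).trans ?_
    rw [norm_star, hx, mul_one]
    exact hTb k
  -- y in terms of T x
  have hyT : y = ((K⁻¹ : ℝ) : ℂ) • T x := by
    rw [hTx, smul_smul, ← Complex.ofReal_mul, inv_mul_cancel₀ hK.ne', Complex.ofReal_one, one_smul]
  have hcomm' : ∀ k n, (T ^ k * G n) * T = T ^ (k + 1) * G n := by
    intro k n
    rw [mul_assoc, ← hcomm, ← mul_assoc, ← pow_succ]
  have hxG : ∀ k, (inner ℂ x ((T ^ k * G (k + 1)) y)).re = γ (k + 1) / K := by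
    intro k
    have h1 : (T ^ k * G (k + 1)) y = ((K⁻¹ : ℝ) : ℂ) • (T ^ (k + 1) * G (k + 1)) x := by
      conv_lhs => rw [hyT]
      rw [map_smul, ← hcomm' k (k + 1)]
      rfl
    rw [h1, inner_smul_right, Complex.re_ofReal_mul]
    rw [hγ]
    simp only
    rw [div_eq_inv_mul]
  -- error bounds
  set c : H := ((-(m⁻¹) : ℝ) : ℂ) • y with hc
  have hLc : Lw κ U c = ((-(m⁻¹) * (1 + κ) : ℝ) : ℂ) • y := by
    rw [hc, hLsmul, hLy, smul_smul, ← Complex.ofReal_mul]
  have hmne : m ≠ 0 := hm.ne'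
  have t2 : (inner ℂ (Lw κ U x) x).re = (1 - κ) + 2 * κ * w ^ 2 := by
    rw [hLx, inner_add_left, inner_smul_left, inner_smul_left, hxx, Complex.conj_ofReal,
      mul_one, Complex.add_re, Complex.ofReal_re, ← hω, map_mul, map_mul, Complex.conj_ofReal]
    have h1 : (starRingEnd ℂ) 2 * (κ : ℂ) * (starRingEnd ℂ) ω * ω = ((2 * κ * w ^ 2 : ℝ) : ℂ) := by
      have h2 : (starRingEnd ℂ) ω * ω = ((w ^ 2 : ℝ) : ℂ) := by
        rw [mul_comm, Complex.mul_conj, Complex.normSq_eq_norm_sq]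
      have h3 : (starRingEnd ℂ) (2 : ℂ) = 2 := by
        rw [Complex.conj_eq_iff_re]; simp
      rw [h3, mul_assoc, h2]; push_cast; ring
    rw [h1, Complex.ofReal_re]
  have t3 : (inner ℂ (Lw κ U c) c).re = 1 - κ := by
    rw [hLc, hc, inner_smul_left, inner_smul_right, hyy, Complex.conj_ofReal, mul_one,
      ← Complex.ofReal_mul, Complex.ofReal_re]
    have : (1 + κ) / m ^ 2 = 1 - κ := by rw [hrel]; field_simp
    rw [← this]; field_simp
  have hcoef : m⁻¹ * (1 + κ) = (1 - κ) * m := by rw [hrel]; field_simp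
  have t6 : (inner ℂ (Lw κ U c) (T x)).re = -((1 - κ) * Q) := by
    rw [hLc, hTx, inner_smul_left, inner_smul_right, hyy, Complex.conj_ofReal, mul_one,
      ← Complex.ofReal_mul, Complex.ofReal_re, hQ]
    linear_combination (-K) * hcoef
  have t9 : (inner ℂ (Lw κ U x) ((G 1) c)).re ≤ -((1 - κ) * (γ 1 / Q)) + (2 * κ / m) * K1 * w := by
    have h0 : (G 1) c = ((-(m⁻¹) : ℝ) : ℂ) • (G 1) y := by rw [hc, map_smul]
    have h1 : (inner ℂ x ((G 1) y)).re = γ 1 / K := by
      have := hxG 0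
      simpa using this
    have h2 : ‖inner ℂ y ((G 1) y)‖ ≤ K1 := by
      refine (norm_inner_le_norm _ _).trans ?_
      rw [hy, one_mul]
      refine ((G 1).le_opNorm y).trans ?_
      rw [hy, mul_one]; exact hGb 1
    rw [hLx, h0, inner_smul_right, Complex.re_ofReal_mul, inner_add_left, inner_smul_left,
      inner_smul_left, Complex.conj_ofReal, Complex.add_re, Complex.re_ofReal_mul, h1]
    have h3 : |((starRingEnd ℂ) (2 * (κ : ℂ) * ω) * inner ℂ y ((G 1) y)).re| ≤ 2 * κ * w * K1 := by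
      refine (Complex.abs_re_le_norm _).trans ?_
      rw [norm_mul, RCLike.norm_conj, norm_mul, norm_mul, Complex.norm_real,
        Real.norm_of_nonneg hκ0]
      have : ‖(2 : ℂ)‖ = 2 := by simp
      rw [this]
      gcongr
    have h4 := (abs_le.mp h3).1
    have h5 : -m⁻¹ * ((1 - κ) * (γ 1 / K)) = -((1 - κ) * (γ 1 / Q)) := by
      rw [hQ]; field_simp
    have h6 : 0 < m⁻¹ := by positivity
    have h7 : m⁻¹ * (-((starRingEnd ℂ) (2 * (κ : ℂ) * ω) * inner ℂ y ((G 1) y)).re) ≤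
        m⁻¹ * (2 * κ * w * K1) := by
      gcongr; linarith
    have h8 : (2 * κ / m) * K1 * w = m⁻¹ * (2 * κ * w * K1) := by field_simp
    rw [h8]
    nlinarith
  -- a = 0
  set d0 : ℝ := 2 - Q - γ 1 / Q with hd0
  have hzero : 0 ≤ (1 - κ) * d0 + E := by
    have h := hpos U hUn 1 le_rfl 0 x c
    rw [hL0, t2, t3, t6] at h
    simp only [map_zero, inner_zero_right, inner_zero_left, Complex.zero_re, zero_add] at h
    have h2 : 2 * κ * w ^ 2 ≤ 2 * κ * w := by
      have : w ^ 2 ≤ w := by nlinarith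
      gcongr
    have h3 : 0 ≤ 2 * κ * K1 ^ 2 * (m * K1) * w := by positivity
    rw [hd0, hE]
    nlinarith
  -- general k
  have hgen : ∀ k, 1 ≤ k → 0 ≤ (1 - κ) * d0 + E +
      (1 - κ) * (Q - 1) * (γ k - γ (k + 1) / Q) := by
    intro k hk
    set β : ℝ := (1 - κ) * (Q - 1) with hβ
    have hβ0 : 0 < β := by positivity
    have hκ2 : (1 - κ ^ 2 : ℝ) = (1 - κ) * (1 + κ) := by ring
    have hκ2p : 0 < 1 - κ ^ 2 := by rw [hκ2]; positivity
    set a : H := ((β / (1 - κ ^ 2) : ℝ) : ℂ) • (z k + (κ : ℂ) • U (z k)) with ha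
    have hLa : Lw κ U a = (β : ℂ) • z k := by
      rw [ha, hLsmul]
      unfold Lw
      rw [map_add, map_smul, hU, refl_refl y hy, ← hU]
      have h1 : z k + (κ : ℂ) • U (z k) - (κ : ℂ) • (U (z k) + (κ : ℂ) • z k) =
          ((1 - κ ^ 2 : ℝ) : ℂ) • z k := by
        rw [smul_add, smul_smul]
        push_cast
        rw [sub_smul, one_smul, pow_two]
        abel
      rw [h1, smul_smul, ← Complex.ofReal_mul, div_mul_cancel₀ _ hκ2p.ne']
    have hanorm : ‖a‖ ≤ (Q - 1) * K1 := by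
      rw [ha, norm_smul, Complex.norm_real, Real.norm_of_nonneg (by positivity)]
      have h1 : ‖z k + (κ : ℂ) • U (z k)‖ ≤ (1 + κ) * K1 := by
        refine (norm_add_le _ _).trans ?_
        rw [norm_smul, Complex.norm_real, Real.norm_of_nonneg hκ0]
        have h2 := hznorm k
        have h3 := (hUn (z k)).trans h2
        nlinarith
      calc β / (1 - κ ^ 2) * ‖z k + (κ : ℂ) • U (z k)‖ ≤ β / (1 - κ ^ 2) * ((1 + κ) * K1) := by
            gcongr
        _ = (Q - 1) * K1 := by rw [hβ, hκ2]; field_simp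
    set S : ℝ := (inner ℂ (z k) a).re with hS
    have t1 : (inner ℂ (Lw κ U a) a).re = β * S := by
      rw [hLa, inner_smul_left, Complex.conj_ofReal, Complex.re_ofReal_mul]
    have hxTa : (inner ℂ x ((T ^ k) a)).re = S := by rw [hS, hzinner]
    have t4 : (inner ℂ (Lw κ U x) ((T ^ k) a)).re ≤ (1 - κ) * S +
        2 * κ * K1 ^ 2 * (m * K1) * w := by
      rw [hLx, inner_add_left, inner_smul_left, inner_smul_left, Complex.conj_ofReal,
        Complex.add_re, Complex.re_ofReal_mul, hxTa]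
      have h2 : ‖inner ℂ y ((T ^ k) a)‖ ≤ K1 * ((Q - 1) * K1) := by
        refine (norm_inner_le_norm _ _).trans ?_
        rw [hy, one_mul]
        refine ((T ^ k).le_opNorm a).trans ?_
        gcongr
        exact hTb k
      have h3 : |((starRingEnd ℂ) (2 * (κ : ℂ) * ω) * inner ℂ y ((T ^ k) a)).re| ≤
          2 * κ * w * (K1 * ((Q - 1) * K1)) := by
        refine (Complex.abs_re_le_norm _).trans ?_
        rw [norm_mul, RCLike.norm_conj, norm_mul, norm_mul, Complex.norm_real,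
          Real.norm_of_nonneg hκ0]
        have : ‖(2 : ℂ)‖ = 2 := by simp
        rw [this]
        gcongr
      have h4 := (abs_le.mp h3).2
      have h5 : 2 * κ * w * (K1 * ((Q - 1) * K1)) ≤ 2 * κ * K1 ^ 2 * (m * K1) * w := by
        have h6 : Q - 1 ≤ m * K1 := by
          have : Q ≤ m * K1 := by rw [hQ]; gcongr
          linarith
        calc 2 * κ * w * (K1 * ((Q - 1) * K1)) = 2 * κ * K1 ^ 2 * (Q - 1) * w := by ring
          _ ≤ _ := by gcongr
      linarith
    have t5 : (inner ℂ (Lw κ U c) ((T ^ (k + 1)) a)).re = -((1 - κ) * Q * S) := by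
      rw [hLc, inner_smul_left, Complex.conj_ofReal, Complex.re_ofReal_mul, pow_succ', hmul,
        ← hadj, hTy, inner_smul_left, Complex.conj_ofReal, Complex.re_ofReal_mul, hxTa, hQ]
      linear_combination (-(K * S)) * hcoef
    have t7 : (inner ℂ (Lw κ U a) ((G k) x)).re = β * γ k := by
      rw [hLa, inner_smul_left, Complex.conj_ofReal, Complex.re_ofReal_mul, hzinner]
      rfl
    have t8 : (inner ℂ (Lw κ U a) ((G (k + 1)) c)).re = -(β * (γ (k + 1) / Q)) := by
      rw [hLa, inner_smul_left, Complex.conj_ofReal, Complex.re_ofReal_mul, hzinner, hc, map_smul,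
        map_smul, inner_smul_right, Complex.re_ofReal_mul]
      have h1 : (inner ℂ x ((T ^ k) ((G (k + 1)) y))).re = γ (k + 1) / K := hxG k
      rw [h1, hQ]
      field_simp
    have h := hpos U hUn k hk a x c
    rw [t1, t2, t3, t5, t6, t7, t8] at h
    have h2 : 2 * κ * w ^ 2 ≤ 2 * κ * w := by
      have : w ^ 2 ≤ w := by nlinarith
      gcongr
    have hcancel : β * S + (1 - κ) * S - (1 - κ) * Q * S = 0 := by rw [hβ]; ring
    rw [hd0, hE]
    nlinarith
  -- conclusion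
  set D : ℝ := d0 + e with hD
  have hEe : E = (1 - κ) * e := by rw [he]; field_simp
  have hD0 : 0 ≤ D := by
    have : 0 ≤ (1 - κ) * D := by rw [hD, mul_add, ← hEe]; exact hzero
    exact nonneg_of_mul_nonneg_right this h1κ
  have hrec : ∀ k, 1 ≤ k → γ (k + 1) ≤ Q * γ k + Q * D / (Q - 1) := by
    intro k hk
    have h := hgen k hk
    have h1 : 0 ≤ (1 - κ) * (D + (Q - 1) * (γ k - γ (k + 1) / Q)) := by
      rw [hD]
      rw [hEe] at h
      linarith
    have h2 : 0 ≤ D + (Q - 1) * (γ k - γ (k + 1) / Q) := nonneg_of_mul_nonneg_right h1 h1κ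
    have h3 : Q * D / (Q - 1) = Q * (D / (Q - 1)) := by ring
    rw [h3]
    have h4 : 0 ≤ D / (Q - 1) + (γ k - γ (k + 1) / Q) := by
      have : D / (Q - 1) + (γ k - γ (k + 1) / Q) =
          (D + (Q - 1) * (γ k - γ (k + 1) / Q)) / (Q - 1) := by field_simp
      rw [this]; positivity
    have h5 : 0 ≤ Q * (D / (Q - 1) + (γ k - γ (k + 1) / Q)) := by positivity
    have h6 : Q * (D / (Q - 1) + (γ k - γ (k + 1) / Q)) =
        Q * (D / (Q - 1)) + Q * γ k - γ (k + 1) := by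
      have : Q * (γ (k + 1) / Q) = γ (k + 1) := by field_simp
      linear_combination (-1) * this
    linarith
  have hlow : ∀ k, -(K1 * K1) ≤ γ (k + 1) := by
    intro k
    have h1 : |γ (k + 1)| ≤ K1 * K1 := by
      calc |γ (k + 1)| ≤ ‖inner ℂ x ((T ^ (k + 1) * G (k + 1)) x)‖ := Complex.abs_re_le_norm _
        _ ≤ ‖x‖ * ‖(T ^ (k + 1) * G (k + 1)) x‖ := norm_inner_le_norm _ _
        _ ≤ 1 * ((K1 * K1) * 1) := by
            rw [hx]
            gcongr
            refine ((T ^ (k + 1) * G (k + 1)).le_opNorm x).trans ?_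
            rw [hx, mul_one, mul_one]
            exact (norm_mul_le _ _).trans (mul_le_mul (hTb _) (hGb _) (norm_nonneg _) hK10)
        _ = K1 * K1 := by ring
    exact (abs_le.mp h1).1
  have hfin := recursion_bound Q D (K1 * K1) γ (by linarith) hrec hlow
  have hγ1 : γ 1 = Q * (2 - Q + e - D) := by
    rw [hD, hd0]; field_simp; ring
  rw [hγ1] at hfin
  have h7 : Q * D / (Q - 1) ^ 2 ≤ Q * D := by
    rw [div_le_iff₀ (by positivity)]
    have : 1 ≤ (Q - 1) ^ 2 := by nlinarith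
    nlinarith [mul_nonneg hQ0.le hD0]
  have h8 : 0 ≤ Q * (2 - Q + e) := by nlinarith
  have h9 := nonneg_of_mul_nonneg_right h8 hQ0
  linarith

end Run7.h159.QN
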