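import Pool.Agent.W753.CZ.Smooth

set_option autoImplicit false

open Complex MeasureTheory Filter Topology Asymptotics

namespace Run7.h159.QN

theorem norm_expm (φ : ℝ) : ‖exp (-φ * I)‖ = 1 := by
  have : (-(φ : ℂ) * I) = ((-φ : ℝ) : ℂ) * I := by push_cast; ring
  rw [this, Complex.norm_exp_ofReal_mul_I]

theorem norm_expp (φ : ℝ) : ‖exp (φ * I)‖ = 1 := Complex.norm_exp_ofReal_mul_I φ

theorem exp_diff (φ ψ : ℝ) : ‖exp (-ψ * I) - exp (-φ * I)‖ ≤ |ψ - φ| := by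
  have e : exp (-ψ * I) - exp (-φ * I) =
      exp (-φ * I) * (exp (I * ((φ - ψ : ℝ) : ℂ)) - 1) := by
    rw [mul_sub, ← Complex.exp_add]
    have : (-(φ : ℂ) * I + I * ((φ - ψ : ℝ) : ℂ)) = -ψ * I := by push_cast; ring
    rw [this]; ring
  rw [e, norm_mul, norm_expm, one_mul]
  have := Real.norm_exp_I_mul_ofReal_sub_one_le (x := φ - ψ)
  rwa [Real.norm_eq_abs, abs_sub_comm] at this

/-- basic consequence of tangency to a disc -/
theorem disc_re {Δ : ℂ} {ρ : ℝ} (h : ‖Δ + ρ‖ ≤ ρ) (R : ℝ) (hρ0 : 0 ≤ ρ) (hρ : ρ ≤ R) :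
    Δ.re ≤ 0 ∧ ‖Δ‖ ^ 2 ≤ -(2 * R * Δ.re) := by
  have h1 : ‖Δ + ρ‖ ^ 2 ≤ ρ ^ 2 := by gcongr
  rw [← normSq_eq_norm_sq, normSq_apply] at h1
  rw [← normSq_eq_norm_sq, normSq_apply]
  simp only [add_re, ofReal_re, add_im, ofReal_im, add_zero] at h1
  have h2 : Δ.re ≤ 0 := by
    by_contra hcon
    push Not at hcon
    nlinarith [mul_nonneg hρ0 hcon.le, sq_nonneg Δ.im]
  refine ⟨h2, ?_⟩
  nlinarith

section
variable (w : ℝ → ℂ) (ρ : ℝ → ℝ) (R R0 : ℝ) (hρ : ∀ φ, 0 ≤ ρ φ ∧ ρ φ ≤ R)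
  (hw : ∀ φ, ‖w φ‖ ≤ R0)
  (hC : ∀ φ ψ : ℝ, ‖exp (-φ * I) * (w ψ - w φ) + ρ φ‖ ≤ ρ φ)

include hρ hC in
theorem w_lip (φ ψ : ℝ) : ‖w ψ - w φ‖ ≤ R * |ψ - φ| := by
  set D := w ψ - w φ with hD
  have hR : 0 ≤ R := (hρ 0).1.trans (hρ 0).2
  obtain ⟨-, h1⟩ := disc_re (hC φ ψ) R (hρ φ).1 (hρ φ).2
  obtain ⟨-, h2⟩ := disc_re (hC ψ φ) R (hρ ψ).1 (hρ ψ).2
  rw [norm_mul, norm_expm, one_mul] at h1 h2
  have e : w φ - w ψ = -D := by rw [hD]; ring
  rw [e, norm_neg, mul_neg, neg_re] at h2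
  have h3 : ‖D‖ ^ 2 ≤ R * ((exp (-ψ * I) - exp (-φ * I)) * D).re := by
    rw [sub_mul, sub_re]
    linarith
  have h4 : ((exp (-ψ * I) - exp (-φ * I)) * D).re ≤ |ψ - φ| * ‖D‖ := by
    refine (re_le_norm _).trans ?_
    rw [norm_mul]
    gcongr
    exact exp_diff φ ψ
  by_cases hD0 : ‖D‖ = 0
  · rw [hD0]; positivity
  have hDp : 0 < ‖D‖ := lt_of_le_of_ne (norm_nonneg _) (Ne.symm hD0)
  have h5 : ‖D‖ * ‖D‖ ≤ (R * |ψ - φ|) * ‖D‖ := by
    have := mul_le_mul_of_nonneg_left h4 hR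
    nlinarith
  exact le_of_mul_le_mul_right h5 hDp

/-- rotated boundary function -/
noncomputable def Sf (φ : ℝ) : ℂ := exp (-φ * I) * w φ

include hρ hC hw in
theorem S_lip (φ ψ : ℝ) : ‖Sf w ψ - Sf w φ‖ ≤ (R0 + R) * |ψ - φ| := by
  have e : Sf w ψ - Sf w φ = (exp (-ψ * I) - exp (-φ * I)) * w ψ +
      exp (-φ * I) * (w ψ - w φ) := by
    unfold Sf; ring
  rw [e]
  refine (norm_add_le _ _).trans ?_
  rw [norm_mul, norm_mul, norm_expm, one_mul, add_mul]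
  have h1 := exp_diff φ ψ
  have h2 := w_lip w ρ R hρ hC φ ψ
  have h3 := hw ψ
  have h4 : ‖exp (-ψ * I) - exp (-φ * I)‖ * ‖w ψ‖ ≤ |ψ - φ| * R0 := by
    gcongr
  linarith

include hw in
theorem S_norm (φ : ℝ) : ‖Sf w φ‖ ≤ R0 := by
  unfold Sf
  rw [norm_mul, norm_expm, one_mul]
  exact hw φ

theorem rot (φ ψ : ℝ) : exp (-ψ * I) * w φ = exp (-((ψ - φ : ℝ) : ℂ) * I) * Sf w φ := by
  unfold Sf
  rw [← mul_assoc, ← Complex.exp_add]
  congr 2
  push_cast; ring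

theorem rot_re (t : ℝ) (z : ℂ) : (exp (-(t : ℂ) * I) * z).re = z.re * Real.cos t + z.im * Real.sin t := by
  have : (-(t : ℂ) * I) = ((-t : ℝ) : ℂ) * I := by push_cast; ring
  rw [this, Complex.exp_mul_I, ← ofReal_cos, ← ofReal_sin, Real.cos_neg, Real.sin_neg]
  simp only [mul_re, add_re, ofReal_re, ofReal_im, I_re, I_im, mul_im, add_im]
  ring

theorem rot_im (t : ℝ) (z : ℂ) : (exp (-(t : ℂ) * I) * z).im = z.im * Real.cos t - z.re * Real.sin t := by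
  have : (-(t : ℂ) * I) = ((-t : ℝ) : ℂ) * I := by push_cast; ring
  rw [this, Complex.exp_mul_I, ← ofReal_cos, ← ofReal_sin, Real.cos_neg, Real.sin_neg]
  simp only [mul_re, add_re, ofReal_re, ofReal_im, I_re, I_im, mul_im, add_im]
  ring

include hρ hC in
/-- `h(ψ) ≥ Re (e^{-iψ} w(φ))`. -/
theorem supp_ge (φ ψ : ℝ) :
    (Sf w φ).re * Real.cos (ψ - φ) + (Sf w φ).im * Real.sin (ψ - φ) ≤ (Sf w ψ).re := by
  obtain ⟨h1, -⟩ := disc_re (hC ψ φ) R (hρ ψ).1 (hρ ψ).2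
  rw [mul_sub, sub_re, rot w φ ψ, rot_re] at h1
  have : (exp (-ψ * I) * w ψ).re = (Sf w ψ).re := rfl
  rw [this] at h1
  linarith

include hρ hC hw in
theorem S_quad (φ ψ : ℝ) (h1 : |ψ - φ| ≤ 1) :
    |(Sf w ψ).re - (Sf w φ).re - (Sf w φ).im * (ψ - φ)| ≤ (3 * R0 + R) * (ψ - φ) ^ 2 := by
  set t := ψ - φ with ht
  have hR0 : 0 ≤ R0 := (norm_nonneg _).trans (hw 0)
  have hR : 0 ≤ R := (hρ 0).1.trans (hρ 0).2
  have ha := supp_ge w ρ R hρ hC φ ψ
  have hb := supp_ge w ρ R hρ hC ψ φ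
  rw [← ht] at ha
  have e1 : φ - ψ = -t := by rw [ht]; ring
  rw [e1, Real.cos_neg, Real.sin_neg] at hb
  have hS1 := S_norm w R0 hw φ
  have hS2 := S_norm w R0 hw ψ
  have hr1 := abs_le.mp ((abs_re_le_norm (Sf w φ)).trans hS1)
  have hr2 := abs_le.mp ((abs_re_le_norm (Sf w ψ)).trans hS2)
  have hi1 := abs_le.mp ((abs_im_le_norm (Sf w φ)).trans hS1)
  have hi2 := abs_le.mp ((abs_im_le_norm (Sf w ψ)).trans hS2)
  have hL := S_lip w ρ R R0 hρ hw hC φ ψ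
  rw [← ht] at hL
  have hdi : |(Sf w ψ).im - (Sf w φ).im| ≤ (R0 + R) * |t| := by
    rw [← sub_im]; exact (abs_im_le_norm _).trans hL
  have hcos1 : 1 - t ^ 2 / 2 ≤ Real.cos t := Real.one_sub_sq_div_two_le_cos
  have hcos2 : Real.cos t ≤ 1 := Real.cos_le_one t
  have hsin : |Real.sin t - t| ≤ t ^ 2 := by
    have h5 := Real.sin_bound h1
    have h6 : |t| ^ 4 ≤ |t| ^ 2 := pow_le_pow_of_le_one (abs_nonneg _) h1 (by norm_num)
    have h7 : |t ^ 3| ≤ |t| ^ 2 := by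
      rw [abs_pow]
      exact pow_le_pow_of_le_one (abs_nonneg _) h1 (by norm_num)
    rw [← sq_abs t]
    have e : Real.sin t - t = (Real.sin t - (t - t ^ 3 / 6)) - t ^ 3 / 6 := by ring
    rw [e]
    refine (abs_sub _ _).trans ?_
    have h8 : |t ^ 3 / 6| = |t ^ 3| / 6 := by rw [abs_div]; norm_num
    rw [h8]
    nlinarith [sq_nonneg t, abs_nonneg t]
  have hsinabs : |Real.sin t| ≤ |t| := Real.abs_sin_le_abs
  set a := (Sf w φ).re
  set b := (Sf w φ).im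
  set a' := (Sf w ψ).re
  set b' := (Sf w ψ).im
  have hc0 : 0 ≤ 1 - Real.cos t := by linarith
  have hc1 : 1 - Real.cos t ≤ t ^ 2 / 2 := by linarith
  have hbs : |b * (Real.sin t - t)| ≤ R0 * t ^ 2 := by
    rw [abs_mul]
    gcongr
    exact abs_le.mpr hi1
  have hbs' : |(b' - b) * Real.sin t| ≤ (R0 + R) * t ^ 2 := by
    rw [abs_mul]
    calc |b' - b| * |Real.sin t| ≤ ((R0 + R) * |t|) * |t| := by gcongr
      _ = (R0 + R) * t ^ 2 := by rw [mul_assoc, ← pow_two, sq_abs]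
  have hbs1 := abs_le.mp hbs
  have hbs2 := abs_le.mp hbs'
  rw [abs_le]
  constructor
  · -- lower
    have h3 : a * (1 - Real.cos t) ≤ R0 * (t ^ 2 / 2) := by
      calc a * (1 - Real.cos t) ≤ R0 * (1 - Real.cos t) := by gcongr; exact hr1.2
        _ ≤ R0 * (t ^ 2 / 2) := by gcongr
    nlinarith [sq_nonneg t, mul_nonneg hR0 (sq_nonneg t), mul_nonneg hR (sq_nonneg t)]
  · have h3 : a' * (1 - Real.cos t) ≤ R0 * (t ^ 2 / 2) := by
      calc a' * (1 - Real.cos t) ≤ R0 * (1 - Real.cos t) := by gcongr; exact hr2.2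
        _ ≤ R0 * (t ^ 2 / 2) := by gcongr
    nlinarith [sq_nonneg t, mul_nonneg hR0 (sq_nonneg t), mul_nonneg hR (sq_nonneg t)]

include hρ hC hw in
theorem S_hasDerivAt (φ : ℝ) : HasDerivAt (fun φ => (Sf w φ).re) (Sf w φ).im φ := by
  have h0 : HasDerivAt (fun ψ => (Sf w ψ).re - (Sf w φ).re - (Sf w φ).im * (ψ - φ)) 0 φ := by
    rw [hasDerivAt_iff_hasFDerivAt]
    have : ContinuousLinearMap.toSpanSingleton ℝ (0 : ℝ) = 0 := by
      ext; simp
    rw [this]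
    refine Asymptotics.IsBigO.hasFDerivAt (n := 2) ?_ (by norm_num)
    apply IsBigO.of_bound (3 * R0 + R)
    have hnh : ∀ᶠ ψ in 𝓝 φ, |ψ - φ| ≤ 1 := by
      filter_upwards [Metric.closedBall_mem_nhds φ one_pos] with ψ hψ
      rwa [Metric.mem_closedBall, Real.dist_eq] at hψ
    filter_upwards [hnh] with ψ hψ
    rw [Real.norm_eq_abs, Real.norm_eq_abs, Real.norm_eq_abs]
    have := S_quad w ρ R R0 hρ hw hC φ ψ hψ
    rwa [abs_pow, abs_abs, sq_abs]
  have h1 : HasDerivAt (fun ψ => (Sf w φ).re + (Sf w φ).im * (ψ - φ)) (Sf w φ).im φ := by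
    have := (((hasDerivAt_id' φ).sub_const φ).const_mul (Sf w φ).im).const_add (Sf w φ).re
    simpa using this
  have h2 := h0.add h1
  refine (h2.congr_deriv (by simp)).congr_of_eventuallyEq ?_
  filter_upwards with ψ
  simp only [Pi.add_apply]
  ring

end

/-- A function with `f b - f a ≥ -C (b-a)^2` is monotone. -/
theorem mono_of_quad (f : ℝ → ℝ) (C : ℝ) (hC : 0 ≤ C)
    (h : ∀ a b, a ≤ b → b ≤ a + 1 → -(C * (b - a) ^ 2) ≤ f b - f a) : Monotone f := by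
  intro a b hab
  rcases eq_or_lt_of_le hab with rfl | hab
  · exact le_rfl
  by_contra hcon
  push Not at hcon
  have hba : 0 < b - a := by linarith
  obtain ⟨n, hn⟩ := exists_nat_gt (max (b - a) (C * (b - a) ^ 2 / (f a - f b)))
  have hn1 : b - a < n := (le_max_left _ _).trans_lt hn
  have hn2 : C * (b - a) ^ 2 / (f a - f b) < n := (le_max_right _ _).trans_lt hn
  have hn0 : (0 : ℝ) < n := by linarith
  set s := (b - a) / n with hs
  have hs0 : 0 < s := by positivity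
  have hs1 : s ≤ 1 := by rw [hs, div_le_one hn0]; exact hn1.le
  have key : ∀ k : ℕ, -(k * (C * s ^ 2)) ≤ f (a + k * s) - f a := by
    intro k
    induction k with
    | zero => simp
    | succ k ih =>
      have h1 := h (a + k * s) (a + (k + 1 : ℕ) * s) (by push_cast; nlinarith) (by push_cast; nlinarith)
      have h2 : (a + (k + 1 : ℕ) * s - (a + k * s)) = s := by push_cast; ring
      rw [h2] at h1
      push_cast at h1 ⊢
      linarith
  have h3 := key n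
  have h4 : a + n * s = b := by rw [hs]; field_simp; ring
  rw [h4] at h3
  have h5 : (n : ℝ) * (C * s ^ 2) = C * (b - a) ^ 2 / n := by rw [hs]; field_simp
  rw [h5] at h3
  rw [div_lt_iff₀ (by linarith)] at hn2
  have h6 : C * (b - a) ^ 2 / n < f a - f b := by
    rw [div_lt_iff₀ hn0]; linarith
  linarith

section
variable (w : ℝ → ℂ) (ρ : ℝ → ℝ) (R R0 : ℝ) (hρ : ∀ φ, 0 ≤ ρ φ ∧ ρ φ ≤ R)
  (hw : ∀ φ, ‖w φ‖ ≤ R0)
  (hC : ∀ φ ψ : ℝ, ‖exp (-φ * I) * (w ψ - w φ) + ρ φ‖ ≤ ρ φ)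

include hρ hC hw in
theorem S_continuous : Continuous (Sf w) := by
  have hR0 : 0 ≤ R0 := (norm_nonneg _).trans (hw 0)
  have hR : 0 ≤ R := (hρ 0).1.trans (hρ 0).2
  have : LipschitzWith ⟨R0 + R, by positivity⟩ (Sf w) := LipschitzWith.of_dist_le_mul fun x y => by
    rw [dist_eq_norm, Real.dist_eq]
    exact S_lip w ρ R R0 hρ hw hC y x
  exact this.continuous

include hρ hC hw in
theorem k_quad (φ ψ : ℝ) (h0 : φ ≤ ψ) (h1 : ψ ≤ φ + 1) :
    -(2 * R0 * (ψ - φ) ^ 2) ≤ (Sf w ψ).im - (Sf w φ).im + (Sf w φ).re * (ψ - φ) := by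
  set t := ψ - φ with ht
  have ht0 : 0 ≤ t := by rw [ht]; linarith
  have ht1 : t ≤ 1 := by rw [ht]; linarith
  have hR0 : 0 ≤ R0 := (norm_nonneg _).trans (hw 0)
  obtain ⟨ha, -⟩ := disc_re (hC φ ψ) R (hρ φ).1 (hρ φ).2
  obtain ⟨hb, -⟩ := disc_re (hC ψ φ) R (hρ ψ).1 (hρ ψ).2
  set z : ℂ := exp (-φ * I) * (w ψ - w φ) with hz
  have e1 : exp (-ψ * I) * (w φ - w ψ) = -(exp (-(t : ℂ) * I) * z) := by
    rw [hz, ← mul_assoc, ← Complex.exp_add]
    have : (-(t : ℂ) * I + -φ * I) = -ψ * I := by rw [ht]; push_cast; ring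
    rw [this]; ring
  rw [e1, neg_re, rot_re] at hb
  have e2 : Sf w ψ = exp (-(t : ℂ) * I) * (Sf w φ + z) := by
    have : Sf w φ + z = exp (-φ * I) * w ψ := by rw [hz]; unfold Sf; ring
    rw [this, ← mul_assoc, ← Complex.exp_add]
    have : (-(t : ℂ) * I + -φ * I) = -ψ * I := by rw [ht]; push_cast; ring
    rw [this]; rfl
  have e3 : (Sf w ψ).im = ((Sf w φ).im + z.im) * Real.cos t - ((Sf w φ).re + z.re) * Real.sin t := by
    rw [e2, rot_im, add_im, add_re]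
  rw [e3]
  have hS1 := S_norm w R0 hw φ
  have hr1 := abs_le.mp ((abs_re_le_norm (Sf w φ)).trans hS1)
  have hi1 := abs_le.mp ((abs_im_le_norm (Sf w φ)).trans hS1)
  have hcos1 : 1 - t ^ 2 / 2 ≤ Real.cos t := Real.one_sub_sq_div_two_le_cos
  have hcos2 : Real.cos t ≤ 1 := Real.cos_le_one t
  have hcos0 : 0 ≤ Real.cos t := by nlinarith
  have hsin0 : 0 ≤ Real.sin t := Real.sin_nonneg_of_nonneg_of_le_pi ht0 (by linarith [Real.pi_gt_three])
  have hsin1 : Real.sin t ≤ t := Real.sin_le ht0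
  have hsin2 : t - t ^ 2 ≤ Real.sin t := by
    have h5 := Real.sin_bound (x := t) (by rw [abs_of_nonneg ht0]; exact ht1)
    rw [abs_of_nonneg ht0] at h5
    have h6 := (abs_le.mp h5).1
    have h7 : t ^ 4 ≤ t ^ 2 := pow_le_pow_of_le_one ht0 ht1 (by norm_num)
    have h8 : t ^ 3 ≤ t ^ 2 := pow_le_pow_of_le_one ht0 ht1 (by norm_num)
    nlinarith
  set a := (Sf w φ).re
  set b := (Sf w φ).im
  -- z.re ≤ 0, 0 ≤ z.re cos + z.im sin
  have hzi : 0 ≤ z.im * Real.cos t := by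
    rcases eq_or_lt_of_le hsin0 with hs | hs
    · -- sin t = 0, so t = 0
      have ht00 : t = 0 := by
        by_contra hne
        have htp : 0 < t := lt_of_le_of_ne ht0 (Ne.symm hne)
        have := Real.sin_pos_of_pos_of_lt_pi htp (by linarith [Real.pi_gt_three])
        linarith
      have hφψ : ψ = φ := by rw [ht] at ht00; linarith
      have hz0 : z = 0 := by rw [hz, hφψ]; simp
      rw [hz0]; simp
    · have h2 : 0 ≤ z.im * Real.sin t := by nlinarith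
      have h3 : 0 ≤ z.im := nonneg_of_mul_nonneg_left h2 hs
      positivity
  have h4 : 0 ≤ -(z.re * Real.sin t) := by nlinarith
  have h5 : -(R0 * (t ^ 2 / 2)) ≤ b * (Real.cos t - 1) := by
    have h6 : b * (1 - Real.cos t) ≤ R0 * (1 - Real.cos t) := by
      gcongr
      exact hi1.2
    nlinarith
  have h6 : -(R0 * t ^ 2) ≤ a * (t - Real.sin t) := by
    have h7 : -(R0 * (t - Real.sin t)) ≤ a * (t - Real.sin t) := by
      have : 0 ≤ t - Real.sin t := by linarith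
      nlinarith [hr1.1]
    nlinarith
  nlinarith [mul_nonneg hR0 (sq_nonneg t)]

include hρ hC hw in
theorem k_mono (φ δ : ℝ) (hδ : 0 ≤ δ) :
    0 ≤ (∫ t in φ..(φ + δ), (Sf w t).re) + ((Sf w (φ + δ)).im - (Sf w φ).im) := by
  have hR0 : 0 ≤ R0 := (norm_nonneg _).trans (hw 0)
  have hR : 0 ≤ R := (hρ 0).1.trans (hρ 0).2
  have hSc := S_continuous w ρ R R0 hρ hw hC
  have hc : Continuous (fun t => (Sf w t).re) := Complex.continuous_re.comp hSc
  set F : ℝ → ℝ := fun ψ => (Sf w ψ).im + ∫ t in (0 : ℝ)..ψ, (Sf w t).re with hF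
  have hmono : Monotone F := by
    apply mono_of_quad F (2 * R0 + (R0 + R)) (by positivity)
    intro a b hab hab1
    have h1 := k_quad w ρ R R0 hρ hw hC a b hab hab1
    have h2 : (∫ t in (0 : ℝ)..b, (Sf w t).re) - ∫ t in (0 : ℝ)..a, (Sf w t).re =
        ∫ t in a..b, (Sf w t).re :=
      intervalIntegral.integral_interval_sub_left (hc.intervalIntegrable _ _)
        (hc.intervalIntegrable _ _)
    have h3 : (Sf w a).re * (b - a) - (R0 + R) * (b - a) ^ 2 ≤ ∫ t in a..b, (Sf w t).re := by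
      have h4 : ∫ _t in a..b, ((Sf w a).re - (R0 + R) * (b - a)) ≤ ∫ t in a..b, (Sf w t).re := by
        apply intervalIntegral.integral_mono_on hab (by simp) (hc.intervalIntegrable _ _)
        intro t ht
        have h5 := S_lip w ρ R R0 hρ hw hC a t
        have h6 : |(Sf w t).re - (Sf w a).re| ≤ (R0 + R) * |t - a| := by
          rw [← sub_re]; exact (abs_re_le_norm _).trans h5
        rw [abs_of_nonneg (by linarith [ht.1] : 0 ≤ t - a)] at h6
        have h7 := (abs_le.mp h6).1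
        have h8 : (R0 + R) * (t - a) ≤ (R0 + R) * (b - a) := by
          gcongr
          exact ht.2
        linarith
      rw [intervalIntegral.integral_const, smul_eq_mul] at h4
      nlinarith
    rw [hF]
    simp only
    have e : (Sf w b).im + (∫ t in (0 : ℝ)..b, (Sf w t).re) -
        ((Sf w a).im + ∫ t in (0 : ℝ)..a, (Sf w t).re) =
        (Sf w b).im - (Sf w a).im + ∫ t in a..b, (Sf w t).re := by rw [← h2]; ring
    rw [e]
    nlinarith
  have h1 := hmono (by linarith : φ ≤ φ + δ)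
  rw [hF] at h1
  simp only at h1
  have h2 : (∫ t in (0 : ℝ)..(φ + δ), (Sf w t).re) - ∫ t in (0 : ℝ)..φ, (Sf w t).re =
      ∫ t in φ..(φ + δ), (Sf w t).re :=
    intervalIntegral.integral_interval_sub_left (hc.intervalIntegrable _ _)
      (hc.intervalIntegrable _ _)
  rw [← h2]
  linarith

end

end Run7.h159.QN
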