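import Pool.Agent.Run7.h159.QBdry
import Pool.Agent.Run7.h159.QSupp

set_option autoImplicit false

open Complex MeasureTheory Filter Topology

namespace Run7.h159.QN

open Pool.Agent.W753.CZ

variable {H : Type*} [NormedAddCommGroup H] [InnerProductSpace ℂ H] [CompleteSpace H]
  [FiniteDimensional ℂ H]

omit [CompleteSpace H] [FiniteDimensional ℂ H] in
/-- a vector close to `ρ u` relative to `q ρ` lies in the cone of cosine `κ` -/
theorem cone_of_disc (q κ ρ : ℝ) (hκ : 0 ≤ κ) (hqκ : q ^ 2 + κ ^ 2 = 1) (hρ : 0 ≤ ρ) (u b : H)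
    (h : ‖b - (ρ : ℂ) • u‖ ≤ q * ρ * ‖u‖) : κ * ‖b‖ * ‖u‖ ≤ (inner ℂ u b).re := by
  rcases eq_or_lt_of_le hρ with h0 | h0
  · rw [← h0] at h
    have h1 : ‖b‖ ≤ 0 := by simpa using h
    have h2 : b = 0 := norm_le_zero_iff.mp h1
    rw [h2]; simp
  have h1 : ‖b - (ρ : ℂ) • u‖ ^ 2 ≤ (q * ρ * ‖u‖) ^ 2 := by gcongr
  rw [norm_sub_sq (𝕜 := ℂ), inner_smul_right, norm_smul, Complex.norm_real,
    Real.norm_of_nonneg hρ] at h1
  have h2 : RCLike.re ((ρ : ℂ) * inner ℂ b u) = ρ * (inner ℂ u b).re := by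
    have h3 : RCLike.re ((ρ : ℂ) * inner ℂ b u) = ρ * (inner ℂ b u).re := Complex.re_ofReal_mul _ _
    rw [h3]
    congr 1
    exact inner_re_symm (𝕜 := ℂ) _ _
  rw [h2] at h1
  have h4 : ρ * (κ * ‖b‖ * ‖u‖) ≤ ρ * (inner ℂ u b).re := by
    nlinarith [sq_nonneg (‖b‖ - κ * (ρ * ‖u‖)), mul_pow q (ρ * ‖u‖) 2, mul_pow κ (ρ * ‖u‖) 2]
  exact le_of_mul_le_mul_left h4 h0

open Polynomial in
theorem q_bound (hdim : 2 ≤ Module.finrank ℂ H) (A : H →L[ℂ] H) (q : ℝ) (hq0 : 0 < q)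
    (hq1 : q < 1) (p : ℂ[X]) (M : ℝ)
    (hM : ∀ x y : H, ‖x‖ = 1 → ‖y‖ = 1 → inner ℂ y x = (q : ℂ) →
      ‖p.eval (inner ℂ y (A x) / q)‖ ≤ M) :
    ‖aeval A p‖ ≤ max 1 (2 * q / (1 + Real.sqrt (1 - q ^ 2))) * M := by
  have hnt : Nontrivial H := Module.nontrivial_of_finrank_pos (R := ℂ) (by omega)
  have h1q2 : 0 < 1 - q ^ 2 := by nlinarith
  set κ := Real.sqrt (1 - q ^ 2) with hκd
  have hκ2 : κ ^ 2 = 1 - q ^ 2 := Real.sq_sqrt h1q2.le
  have hκ0 : 0 < κ := Real.sqrt_pos.mpr h1q2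
  have hκ1 : κ < 1 := by nlinarith
  have hqκ : q ^ 2 + κ ^ 2 = 1 := by linarith
  have hqc : (q : ℂ) ≠ 0 := by exact_mod_cast hq0.ne'
  set m := (1 + κ) / q with hm
  have hm0 : 0 < m := by positivity
  have hrel : 1 + κ = (1 - κ) * m ^ 2 := by
    rw [hm]; field_simp
    have : q ^ 2 = (1 - κ) * (1 + κ) := by linarith
    rw [this]; ring
  have h2m : 2 * q / (1 + κ) = 2 / m := by rw [hm]; field_simp
  rw [h2m]
  choose cf hcfb hcf using fun A' : H →L[ℂ] H => exists_disc hdim A' q κ hq0 hq1 hqκ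
  set Aφ : ℝ → H →L[ℂ] H := fun φ => exp (-φ * I) • A with hAφ
  have hAn : ∀ φ, ‖Aφ φ‖ = ‖A‖ := by
    intro φ; rw [hAφ]; simp only; rw [norm_smul, norm_expm, one_mul]
  set ρ : ℝ → ℝ := fun φ => ‖Aφ φ - cf (Aφ φ) • (1 : H →L[ℂ] H)‖ / q with hρd
  set w : ℝ → ℂ := fun φ => exp (φ * I) * (cf (Aφ φ) + ρ φ) with hw
  set R : ℝ := (‖A‖ + 2 * ‖A‖ / (1 - q)) / q with hR
  set R0 : ℝ := ‖A‖ / q with hR0
  have h1q : 0 < 1 - q := by linarith
  have hR00 : 0 ≤ R0 := by positivity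
  have hR'0 : 0 ≤ R := by positivity
  have hexp : ∀ φ : ℝ, exp (-φ * I) * exp (φ * I) = 1 := by
    intro φ
    rw [← Complex.exp_add]
    have : (-(φ : ℂ) * I + φ * I) = 0 := by ring
    rw [this, Complex.exp_zero]
  have hSf : ∀ φ, Sf w φ = cf (Aφ φ) + ρ φ := by
    intro φ
    unfold Sf
    rw [hw]
    simp only
    rw [← mul_assoc, hexp, one_mul]
  have hρ : ∀ φ, 0 ≤ ρ φ ∧ ρ φ ≤ R := by
    intro φ
    refine ⟨by rw [hρd]; positivity, ?_⟩
    rw [hρd, hR]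
    simp only
    gcongr
    refine (norm_sub_le _ _).trans ?_
    rw [hAn, norm_smul, norm_one, mul_one]
    have := hcfb (Aφ φ)
    rw [hAn] at this
    linarith
  -- every boundary point lies in the scaled q-range
  have hwQ : ∀ φ, ∃ x y : H, ‖x‖ = 1 ∧ ‖y‖ = 1 ∧ inner ℂ y x = (q : ℂ) ∧
      w φ = inner ℂ y (A x) / q := by
    intro φ
    obtain ⟨x, y, hx, hy, hxy, hv⟩ := hcf (Aφ φ)
    refine ⟨x, y, hx, hy, hxy, ?_⟩
    have h1 : inner ℂ y ((Aφ φ - cf (Aφ φ) • (1 : H →L[ℂ] H)) x) =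
        exp (-φ * I) * inner ℂ y (A x) - cf (Aφ φ) * q := by
      have : (Aφ φ - cf (Aφ φ) • (1 : H →L[ℂ] H)) x = exp (-φ * I) • A x - cf (Aφ φ) • x := rfl
      rw [this, inner_sub_right, inner_smul_right, inner_smul_right, hxy]
    rw [h1] at hv
    have h2 : (ρ φ : ℂ) * q = exp (-φ * I) * inner ℂ y (A x) - cf (Aφ φ) * q := by
      rw [hv, hρd]
      push_cast
      field_simp
    have h3 : (cf (Aφ φ) + ρ φ) = exp (-φ * I) * inner ℂ y (A x) / q := by
      field_simp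
      rw [add_mul, h2]; ring
    rw [hw]
    simp only
    rw [h3]
    calc exp (φ * I) * (exp (-φ * I) * inner ℂ y (A x) / q) =
          (exp (-φ * I) * exp (φ * I)) * (inner ℂ y (A x) / q) := by ring
      _ = _ := by rw [hexp, one_mul]
  have hdisc : ∀ (φ : ℝ) (x y : H), ‖x‖ = 1 → ‖y‖ = 1 → inner ℂ y x = (q : ℂ) →
      ‖exp (-φ * I) * (inner ℂ y (A x) / q) - cf (Aφ φ)‖ ≤ ρ φ := by
    intro φ x y hx hy hxy
    have h1 : exp (-φ * I) * (inner ℂ y (A x) / q) - cf (Aφ φ) =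
        inner ℂ y ((Aφ φ - cf (Aφ φ) • (1 : H →L[ℂ] H)) x) / q := by
      have : (Aφ φ - cf (Aφ φ) • (1 : H →L[ℂ] H)) x = exp (-φ * I) • A x - cf (Aφ φ) • x := rfl
      rw [this, inner_sub_right, inner_smul_right, inner_smul_right, hxy]
      field_simp
    rw [h1, norm_div, Complex.norm_real, Real.norm_of_nonneg hq0.le, hρd]
    simp only
    gcongr
    refine (norm_inner_le_norm _ _).trans ?_
    rw [hy, one_mul]
    have := (Aφ φ - cf (Aφ φ) • (1 : H →L[ℂ] H)).le_opNorm x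
    rwa [hx, mul_one] at this
  have hC : ∀ φ ψ : ℝ, ‖exp (-φ * I) * (w ψ - w φ) + ρ φ‖ ≤ ρ φ := by
    intro φ ψ
    obtain ⟨x, y, hx, hy, hxy, hv⟩ := hwQ ψ
    have h1 := hdisc φ x y hx hy hxy
    rw [← hv] at h1
    have h2 : exp (-φ * I) * w φ = cf (Aφ φ) + ρ φ := hSf φ
    have h3 : exp (-φ * I) * (w ψ - w φ) + ρ φ = exp (-φ * I) * w ψ - cf (Aφ φ) := by
      rw [mul_sub, h2]; ring
    rw [h3]
    exact h1
  have hwn : ∀ φ, ‖w φ‖ ≤ R0 := by
    intro φ
    obtain ⟨x, y, hx, hy, -, hv⟩ := hwQ φ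
    rw [hv, norm_div, Complex.norm_real, Real.norm_of_nonneg hq0.le, hR0]
    gcongr
    refine (norm_inner_le_norm _ _).trans ?_
    rw [hy, one_mul]
    have := A.le_opNorm x
    rwa [hx, mul_one] at this
  have hM0 : 0 ≤ M := by
    obtain ⟨x, y, hx, hy, hxy⟩ := exists_pair (H := H) hdim q κ hqκ
    exact (norm_nonneg _).trans (hM x y hx hy hxy)
  have hcone0 : ∀ (φ : ℝ) (u : H), κ * ‖Sf w φ • u - exp (-φ * I) • A u‖ * ‖u‖ ≤
      (inner ℂ u (Sf w φ • u - exp (-φ * I) • A u)).re := by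
    intro φ u
    apply cone_of_disc q κ (ρ φ) hκ0.le hqκ (hρ φ).1
    have h1 : Sf w φ • u - exp (-φ * I) • A u - (ρ φ : ℂ) • u =
        -((Aφ φ - cf (Aφ φ) • (1 : H →L[ℂ] H)) u) := by
      have : (Aφ φ - cf (Aφ φ) • (1 : H →L[ℂ] H)) u = exp (-φ * I) • A u - cf (Aφ φ) • u := rfl
      rw [this, hSf, add_smul]
      abel
    rw [h1, norm_neg]
    refine ((Aφ φ - cf (Aφ φ) • (1 : H →L[ℂ] H)).le_opNorm u).trans (le_of_eq ?_)
    rw [hρd]; field_simp
  have hSc : Continuous (Sf w) := S_continuous w ρ R R0 hρ hwn hC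
  have hSre : Continuous (fun t => (Sf w t).re) := Complex.continuous_re.comp hSc
  have hSim : Continuous (fun t => (Sf w t).im) := Complex.continuous_im.comp hSc
  have hexpc : Continuous (fun t : ℝ => exp (-(t : ℂ) * I)) := by fun_prop
  have hwper : ∀ φ, Sf w (φ + 2 * Real.pi) = Sf w φ := by
    intro φ
    have h1 : Aφ (φ + 2 * Real.pi) = Aφ φ := by
      rw [hAφ]
      simp only
      have : exp (-((φ + 2 * Real.pi : ℝ) : ℂ) * I) = exp (-φ * I) := by
        have e : (-((φ + 2 * Real.pi : ℝ) : ℂ) * I) = -φ * I - 2 * Real.pi * I := by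
          push_cast; ring
        rw [e, Complex.exp_sub, Complex.exp_two_pi_mul_I, div_one]
      rw [this]
    rw [hSf, hSf, h1, hρd]
    simp only
    rw [h1]
  set C0 : ℝ := (1 + κ) * ‖A‖ / (1 - κ) + 1 with hC0
  have h1κ : 0 < 1 - κ := by linarith
  have hC00 : 0 ≤ C0 := by positivity
  have hC0A : C0 * (1 - κ) = (1 + κ) * ‖A‖ + (1 - κ) := by rw [hC0]; field_simp
  have hC0A' : ‖A‖ + 1 ≤ C0 := by
    have : ‖A‖ ≤ (1 + κ) * ‖A‖ / (1 - κ) := by
      rw [le_div_iff₀ h1κ]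
      nlinarith [norm_nonneg A]
    linarith
  refine le_of_forall_pos_le_add fun ε0 hε0 => ?_
  set C1 : ℝ := max 1 (2 / m) with hC1
  have hC1p : 0 < C1 := lt_of_lt_of_le one_pos (le_max_left _ _)
  set ε := ε0 / C1 with hε
  have hεp : 0 < ε := by positivity
  -- uniform continuity
  obtain ⟨η, hη, hηp⟩ : ∃ η > 0, ∀ z z' : ℂ, ‖z‖ ≤ R0 → ‖z' - z‖ ≤ η → ‖p.eval z'‖ ≤ ‖p.eval z‖ + ε := by
    have huc : UniformContinuousOn (fun z : ℂ => p.eval z) (Metric.closedBall 0 (R0 + 1)) :=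
      (isCompact_closedBall _ _).uniformContinuousOn_of_continuous (by fun_prop)
    rw [Metric.uniformContinuousOn_iff] at huc
    obtain ⟨η, hη, h⟩ := huc ε hεp
    refine ⟨min (η / 2) 1, by positivity, ?_⟩
    intro z z' hz hzz
    have h1 : ‖z' - z‖ ≤ 1 := hzz.trans (min_le_right _ _)
    have h2 : ‖z' - z‖ < η := by
      have := hzz.trans (min_le_left _ _)
      linarith
    have h3 : ‖z'‖ ≤ R0 + 1 := by
      have : z' = z + (z' - z) := by ring
      rw [this]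
      exact (norm_add_le _ _).trans (by linarith)
    have h4 := h z' (by simpa using h3) z (by simp; linarith) (by rw [dist_eq_norm]; exact h2)
    rw [dist_eq_norm] at h4
    have h5 : p.eval z' = p.eval z + (p.eval z' - p.eval z) := by ring
    rw [h5]
    exact (norm_add_le _ _).trans (by linarith)
  obtain ⟨δ, hδ, hδη⟩ : ∃ δ > 0, ((R0 + R) + C0) * δ ≤ η := by
    refine ⟨η / ((R0 + R) + C0 + 1), by positivity, ?_⟩
    rw [mul_div_assoc']
    rw [div_le_iff₀ (by positivity)]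
    nlinarith
  have hδi : 0 < δ⁻¹ := inv_pos.mpr hδ
  set Hf : ℝ → ℝ := fun φ => avg δ (fun t => (Sf w t).re) φ + C0 * δ with hHf
  set H1 : ℝ → ℝ := fun φ => δ⁻¹ * ((Sf w (φ + δ)).re - (Sf w φ).re) with hH1
  set H2 : ℝ → ℝ := fun φ => δ⁻¹ * ((Sf w (φ + δ)).im - (Sf w φ).im) with hH2
  have hd1 : ∀ φ, HasDerivAt Hf (H1 φ) φ := fun φ => (avg_hasDerivAt hSre φ).add_const _
  have hd2 : ∀ φ, HasDerivAt H1 (H2 φ) φ := by
    intro φ
    have e1 := (S_hasDerivAt w ρ R R0 hρ hwn hC (φ + δ)).comp_add_const φ δ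
    exact (e1.sub (S_hasDerivAt w ρ R R0 hρ hwn hC φ)).const_mul _
  have hd2c : Continuous H2 := by
    rw [hH2]
    exact continuous_const.mul ((hSim.comp (continuous_id.add continuous_const)).sub hSim)
  have hper0 : Hf (2 * Real.pi) = Hf 0 := by
    rw [hHf]
    simp only
    congr 1
    have := avg_periodic (δ := δ) (h := fun t => (Sf w t).re) (c := 2 * Real.pi)
      (fun φ => congrArg Complex.re (hwper φ)) 0
    rwa [zero_add] at this
  have hper1 : H1 (2 * Real.pi) = H1 0 := by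
    rw [hH1]
    simp only
    have e1 : Sf w (2 * Real.pi + δ) = Sf w (0 + δ) := by
      rw [zero_add, add_comm]; exact hwper δ
    have e2 : Sf w (2 * Real.pi) = Sf w 0 := by
      have := hwper 0
      rwa [zero_add] at this
    rw [e1, e2]
  have hpos : ∀ φ, 0 ≤ Hf φ + H2 φ := by
    intro φ
    have h1 := k_mono w ρ R R0 hρ hwn hC φ δ hδ.le
    rw [hHf, hH2]
    simp only
    unfold avg
    have h2 : 0 ≤ δ⁻¹ * ((∫ t in φ..(φ + δ), (Sf w t).re) + ((Sf w (φ + δ)).im - (Sf w φ).im)) := by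
      positivity
    have h3 : 0 ≤ C0 * δ := by positivity
    linarith
  have hH1avg : ∀ φ, H1 φ = δ⁻¹ * ∫ t in φ..(φ + δ), (Sf w t).im := by
    intro φ
    rw [hH1]
    simp only
    congr 1
    symm
    apply intervalIntegral.integral_eq_sub_of_hasDerivAt
      (f := fun t => (Sf w t).re) (fun t _ => S_hasDerivAt w ρ R R0 hρ hwn hC t)
      (hSim.intervalIntegrable _ _)
  have hSavg : ∀ φ : ℝ, ((Hf φ : ℂ) + (H1 φ : ℂ) * I) =
      ((δ⁻¹ : ℝ) : ℂ) * (∫ t in φ..(φ + δ), Sf w t) + ((C0 * δ : ℝ) : ℂ) := by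
    intro φ
    have e1 : (∫ t in φ..(φ + δ), Sf w t) = ((∫ t in φ..(φ + δ), (Sf w t).re : ℝ) : ℂ) +
        ((∫ t in φ..(φ + δ), (Sf w t).im : ℝ) : ℂ) * I := by
      have e2 : ∀ t, Sf w t = ((Sf w t).re : ℂ) + ((Sf w t).im : ℂ) * I := fun t =>
        (Complex.re_add_im _).symm
      rw [intervalIntegral.integral_congr (g := fun t => ((Sf w t).re : ℂ) + ((Sf w t).im : ℂ) * I)
        (fun t _ => e2 t)]
      have i1 : IntervalIntegrable (fun t => ((Sf w t).re : ℂ)) volume φ (φ + δ) :=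
        (Complex.continuous_ofReal.comp hSre).intervalIntegrable _ _
      have i2 : IntervalIntegrable (fun t => ((Sf w t).im : ℂ) * I) volume φ (φ + δ) :=
        ((Complex.continuous_ofReal.comp hSim).mul continuous_const).intervalIntegrable _ _
      rw [intervalIntegral.integral_add i1 i2,
        intervalIntegral.integral_mul_const, intervalIntegral.integral_ofReal,
        intervalIntegral.integral_ofReal]
    rw [e1, hH1avg, hHf]
    simp only
    unfold avg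
    push_cast
    ring
  -- the averaged vector
  have hvec : ∀ (φ : ℝ) (u : H), ∃ (v : H) (E : ℂ), κ * ‖v‖ * ‖u‖ ≤ (inner ℂ u v).re ∧
      ‖E‖ ≤ δ ∧ (((Hf φ : ℂ) + (H1 φ : ℂ) * I) • (1 : H →L[ℂ] H) - exp (-φ * I) • A) u =
        v + ((C0 * δ : ℝ) : ℂ) • u + E • A u := by
    intro φ u
    set b : ℝ → H := fun t => Sf w t • u - exp (-(t : ℂ) * I) • A u with hb
    have hbc : Continuous b := by
      rw [hb]
      exact (hSc.smul continuous_const).sub (hexpc.smul continuous_const)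
    refine ⟨((δ⁻¹ : ℝ) : ℂ) • ∫ t in φ..(φ + δ), b t,
      ((δ⁻¹ : ℝ) : ℂ) * (∫ t in φ..(φ + δ), exp (-(t : ℂ) * I)) - exp (-φ * I), ?_, ?_, ?_⟩
    · have e1 : ‖((δ⁻¹ : ℝ) : ℂ) • ∫ t in φ..(φ + δ), b t‖ ≤ δ⁻¹ * ∫ t in φ..(φ + δ), ‖b t‖ := by
        rw [norm_smul, Complex.norm_real, Real.norm_of_nonneg hδi.le]
        gcongr
        exact intervalIntegral.norm_integral_le_integral_norm (by linarith)
      have e2 : (inner ℂ u (((δ⁻¹ : ℝ) : ℂ) • ∫ t in φ..(φ + δ), b t)).re =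
          δ⁻¹ * ∫ t in φ..(φ + δ), (inner ℂ u (b t)).re := by
        rw [inner_smul_right, re_ofReal_mul]
        congr 1
        have e3 := ContinuousLinearMap.intervalIntegral_comp_comm (innerSL ℂ u) (f := b)
          (a := φ) (b := φ + δ) (μ := volume) (hbc.intervalIntegrable _ _)
        have hic : Continuous (fun t => inner ℂ u (b t)) := by fun_prop
        have e4 := ContinuousLinearMap.intervalIntegral_comp_comm Complex.reCLM
          (f := fun t => inner ℂ u (b t)) (a := φ) (b := φ + δ) (μ := volume)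
          (hic.intervalIntegrable _ _)
        have e5 : ∫ t in φ..(φ + δ), inner ℂ u (b t) = inner ℂ u (∫ t in φ..(φ + δ), b t) := e3
        rw [← e5]
        exact e4.symm
      rw [e2]
      have e6 : ∫ t in φ..(φ + δ), (κ * ‖u‖) * ‖b t‖ ≤ ∫ t in φ..(φ + δ), (inner ℂ u (b t)).re := by
        have hic : Continuous (fun t => (inner ℂ u (b t)).re) :=
          Complex.continuous_re.comp (by fun_prop)
        apply intervalIntegral.integral_mono_on (by linarith)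
          ((continuous_const.mul hbc.norm).intervalIntegrable _ _) (hic.intervalIntegrable _ _)
        intro t _
        have := hcone0 t u
        calc κ * ‖u‖ * ‖b t‖ = κ * ‖b t‖ * ‖u‖ := by ring
          _ ≤ _ := this
      rw [intervalIntegral.integral_const_mul] at e6
      calc κ * ‖((δ⁻¹ : ℝ) : ℂ) • ∫ t in φ..(φ + δ), b t‖ * ‖u‖ ≤
            κ * (δ⁻¹ * ∫ t in φ..(φ + δ), ‖b t‖) * ‖u‖ := by gcongr
        _ = δ⁻¹ * (κ * ‖u‖ * ∫ t in φ..(φ + δ), ‖b t‖) := by ring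
        _ ≤ _ := by gcongr
    · have e1 : ((δ⁻¹ : ℝ) : ℂ) * (∫ t in φ..(φ + δ), exp (-(t : ℂ) * I)) - exp (-φ * I) =
          ((δ⁻¹ : ℝ) : ℂ) * (∫ t in φ..(φ + δ), (exp (-(t : ℂ) * I) - exp (-φ * I))) := by
        rw [intervalIntegral.integral_sub (hexpc.intervalIntegrable _ _)
          (continuous_const.intervalIntegrable _ _), intervalIntegral.integral_const,
          add_sub_cancel_left, mul_sub]
        congr 1
        rw [Complex.real_smul, ← mul_assoc, ← ofReal_mul, inv_mul_cancel₀ hδ.ne', ofReal_one,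
          one_mul]
      rw [e1, norm_mul, Complex.norm_real, Real.norm_of_nonneg hδi.le, inv_mul_le_iff₀ hδ]
      have := intervalIntegral.norm_integral_le_of_norm_le_const (a := φ) (b := φ + δ)
        (f := fun t : ℝ => exp (-(t : ℂ) * I) - exp (-φ * I)) (C := δ) (fun t ht => by
          rw [Set.uIoc_of_le (by linarith)] at ht
          refine (exp_diff φ t).trans ?_
          rw [abs_of_nonneg (by linarith [ht.1])]
          linarith [ht.2])
      rwa [add_sub_cancel_left, abs_of_pos hδ] at this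
    · have e1 : ∫ t in φ..(φ + δ), b t = (∫ t in φ..(φ + δ), Sf w t) • u -
          (∫ t in φ..(φ + δ), exp (-(t : ℂ) * I)) • A u := by
        have i1 : IntervalIntegrable (fun t => Sf w t • u) volume φ (φ + δ) :=
          (hSc.smul continuous_const).intervalIntegrable _ _
        have i2 : IntervalIntegrable (fun t : ℝ => exp (-(t : ℂ) * I) • A u) volume φ (φ + δ) :=
          (hexpc.smul continuous_const).intervalIntegrable _ _
        have := intervalIntegral.integral_sub i1 i2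
        rw [intervalIntegral.integral_smul_const, intervalIntegral.integral_smul_const] at this
        exact this
      have e2 : (((Hf φ : ℂ) + (H1 φ : ℂ) * I) • (1 : H →L[ℂ] H) - exp (-φ * I) • A) u =
          ((Hf φ : ℂ) + (H1 φ : ℂ) * I) • u - exp (-φ * I) • A u := rfl
      rw [e1, e2, hSavg, smul_sub, smul_smul, smul_smul, sub_smul, add_smul]
      abel
  have hnormE : ∀ (E : ℂ) (u : H), ‖E‖ ≤ δ → ‖E • A u‖ ≤ δ * (‖A‖ * ‖u‖) := by
    intro E u hE
    rw [norm_smul]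
    gcongr
    exact A.le_opNorm u
  have hreAll : ∀ (v u : H) (E : ℂ), ‖E‖ ≤ δ → (inner ℂ u v).re + C0 * δ * ‖u‖ ^ 2 -
      δ * ‖A‖ * ‖u‖ ^ 2 ≤ (inner ℂ u (v + ((C0 * δ : ℝ) : ℂ) • u + E • A u)).re := by
    intro v u E hE
    rw [inner_add_right, inner_add_right, add_re, add_re, inner_smul_right, re_ofReal_mul]
    have h1 : (inner ℂ u u).re = ‖u‖ ^ 2 := by
      rw [inner_self_eq_norm_sq_to_K]; norm_cast
    have h2 : |(inner ℂ u (E • A u)).re| ≤ ‖u‖ * (δ * (‖A‖ * ‖u‖)) := by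
      refine (abs_re_le_norm _).trans ((norm_inner_le_norm _ _).trans ?_)
      gcongr
      exact hnormE E u hE
    have h3 := (abs_le.mp h2).1
    rw [h1]
    nlinarith
  have hcoer : ∀ (φ : ℝ) (u : H), δ * ‖u‖ ^ 2 ≤
      (inner ℂ u ((((Hf φ : ℂ) + (H1 φ : ℂ) * I) • (1 : H →L[ℂ] H) - exp (-φ * I) • A) u)).re := by
    intro φ u
    obtain ⟨v, E, hv, hE, he⟩ := hvec φ u
    rw [he]
    have h1 := hreAll v u E hE
    have h2 : 0 ≤ (inner ℂ u v).re := le_trans (by positivity) hv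
    have h3 : 0 ≤ δ * ‖u‖ ^ 2 := by positivity
    nlinarith
  have hcone : ∀ (φ : ℝ) (u : H),
      κ * ‖(((Hf φ : ℂ) + (H1 φ : ℂ) * I) • (1 : H →L[ℂ] H) - exp (-φ * I) • A) u‖ * ‖u‖ ≤
      (inner ℂ u ((((Hf φ : ℂ) + (H1 φ : ℂ) * I) • (1 : H →L[ℂ] H) - exp (-φ * I) • A) u)).re := by
    intro φ u
    obtain ⟨v, E, hv, hE, he⟩ := hvec φ u
    rw [he]
    refine le_trans ?_ (hreAll v u E hE)
    have h1 : ‖v + ((C0 * δ : ℝ) : ℂ) • u + E • A u‖ ≤ ‖v‖ + C0 * δ * ‖u‖ + δ * (‖A‖ * ‖u‖) := by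
      refine (norm_add_le _ _).trans (add_le_add ((norm_add_le _ _).trans ?_) (hnormE E u hE))
      rw [norm_smul, Complex.norm_real, Real.norm_of_nonneg (by positivity)]
    calc κ * ‖v + ((C0 * δ : ℝ) : ℂ) • u + E • A u‖ * ‖u‖ ≤
          κ * (‖v‖ + C0 * δ * ‖u‖ + δ * (‖A‖ * ‖u‖)) * ‖u‖ := by gcongr
      _ = κ * ‖v‖ * ‖u‖ + (κ * C0 + κ * ‖A‖) * (δ * ‖u‖ ^ 2) := by ring
      _ ≤ (inner ℂ u v).re + (C0 - ‖A‖) * (δ * ‖u‖ ^ 2) := by
          have h3 : 0 ≤ δ * ‖u‖ ^ 2 := by positivity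
          have h4 : κ * C0 + κ * ‖A‖ ≤ C0 - ‖A‖ := by linarith
          have := mul_le_mul_of_nonneg_right h4 h3
          linarith
      _ = _ := by ring
  have hnear : ∀ φ, ‖sg Hf H1 φ - w φ‖ ≤ η := by
    intro φ
    have e1 : sg Hf H1 φ - w φ = exp (φ * I) * (((Hf φ : ℂ) + (H1 φ : ℂ) * I) - Sf w φ) := by
      unfold sg Sf
      rw [mul_sub, ← mul_assoc (exp (φ * I)) (exp (-φ * I)), mul_comm (exp (φ * I)) (exp (-φ * I)),
        hexp, one_mul]
    have e2 : ((Hf φ : ℂ) + (H1 φ : ℂ) * I) - Sf w φ =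
        ((δ⁻¹ : ℝ) : ℂ) * (∫ t in φ..(φ + δ), (Sf w t - Sf w φ)) + ((C0 * δ : ℝ) : ℂ) := by
      rw [hSavg, intervalIntegral.integral_sub (hSc.intervalIntegrable _ _)
        (continuous_const.intervalIntegrable _ _), intervalIntegral.integral_const,
        add_sub_cancel_left, mul_sub, Complex.real_smul, ← mul_assoc ((δ⁻¹ : ℝ) : ℂ) (δ : ℂ),
        ← ofReal_mul, inv_mul_cancel₀ hδ.ne', ofReal_one, one_mul]
      ring
    rw [e1, norm_mul, norm_expp, one_mul, e2]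
    refine (norm_add_le _ _).trans ?_
    rw [norm_mul, Complex.norm_real, Complex.norm_real, Real.norm_of_nonneg hδi.le,
      Real.norm_of_nonneg (by positivity : 0 ≤ C0 * δ)]
    have h1 := intervalIntegral.norm_integral_le_of_norm_le_const (a := φ) (b := φ + δ)
      (f := fun t : ℝ => Sf w t - Sf w φ) (C := (R0 + R) * δ) (fun t ht => by
        rw [Set.uIoc_of_le (by linarith)] at ht
        refine (S_lip w ρ R R0 hρ hwn hC φ t).trans ?_
        rw [abs_of_nonneg (by linarith [ht.1])]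
        gcongr
        linarith [ht.2])
    rw [add_sub_cancel_left, abs_of_pos hδ] at h1
    have h2 : δ⁻¹ * ‖∫ t in φ..(φ + δ), (Sf w t - Sf w φ)‖ ≤ (R0 + R) * δ := by
      rw [inv_mul_le_iff₀ hδ]
      linarith
    linarith
  have hev : ∀ φ, ‖p.eval (sg Hf H1 φ)‖ ≤ M + ε := by
    intro φ
    refine (hηp (w φ) (sg Hf H1 φ) (hwn φ) (hnear φ)).trans ?_
    obtain ⟨x, y, hx, hy, hxy, hv⟩ := hwQ φ
    rw [hv]
    linarith [hM x y hx hy hxy]
  have hfin := curve_bound_q A Hf H1 H2 hd1 hd2 hd2c hper0 hper1 hpos δ hδ κ m hκ0.le hκ1 hm0 hrel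
    hcoer hcone p (M + ε) (by positivity) hev
  calc ‖aeval A p‖ ≤ C1 * (M + ε) := hfin
    _ = C1 * M + ε0 := by rw [mul_add, hε]; field_simp

end Run7.h159.QN
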