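import Pool.Agent.Run7.h159.QCore

set_option autoImplicit false

open Complex ContinuousLinearMap

namespace Run7.h159.QN

theorem mob_bound (w a : ℂ) (hw : ‖w‖ ≤ 1) (ha : ‖a‖ ≤ 1 / 2) :
    ‖w - a + (starRingEnd ℂ) a * w ^ 2‖ ^ 2 ≤ 1 + 4 * ‖a‖ ^ 2 := by
  set v : ℂ := -a + (starRingEnd ℂ) a * w ^ 2 with hv
  have hvn : ‖v‖ ≤ 2 * ‖a‖ := by
    rw [hv]
    refine (norm_add_le _ _).trans ?_
    rw [norm_neg, norm_mul, RCLike.norm_conj, norm_pow]
    have : ‖w‖ ^ 2 ≤ 1 := pow_le_one₀ (norm_nonneg _) hw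
    nlinarith [norm_nonneg a]
  have e1 : w - a + (starRingEnd ℂ) a * w ^ 2 = w + v := by rw [hv]; ring
  rw [e1, ← normSq_eq_norm_sq, normSq_add, normSq_eq_norm_sq, normSq_eq_norm_sq]
  have e2 : (w * (starRingEnd ℂ) v).re = -(1 - ‖w‖ ^ 2) * ((starRingEnd ℂ) a * w).re := by
    have e3 : w * (starRingEnd ℂ) v = -(w * (starRingEnd ℂ) a) +
        ((‖w‖ ^ 2 : ℝ) : ℂ) * (a * (starRingEnd ℂ) w) := by
      rw [hv, ← normSq_eq_norm_sq, ← mul_conj]
      simp only [map_add, map_neg, map_mul, map_pow, conj_conj]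
      ring
    rw [e3, add_re, neg_re, re_ofReal_mul]
    have e4 : (a * (starRingEnd ℂ) w).re = ((starRingEnd ℂ) a * w).re := by
      simp [mul_re]
    have e5 : (w * (starRingEnd ℂ) a).re = ((starRingEnd ℂ) a * w).re := by rw [mul_comm]
    rw [e4, e5]
    ring
  rw [e2]
  have h1 : |((starRingEnd ℂ) a * w).re| ≤ ‖a‖ * ‖w‖ := by
    refine (abs_re_le_norm _).trans ?_
    rw [norm_mul, RCLike.norm_conj]
  have h2 := (abs_le.mp h1).1
  have hw2 : 0 ≤ 1 - ‖w‖ ^ 2 := by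
    have : ‖w‖ ^ 2 ≤ 1 := pow_le_one₀ (norm_nonneg _) hw
    linarith
  have h3 : -(1 - ‖w‖ ^ 2) * ((starRingEnd ℂ) a * w).re ≤ (1 - ‖w‖ ^ 2) * (‖a‖ * ‖w‖) := by
    nlinarith
  have h4 : (1 - ‖w‖ ^ 2) * (‖a‖ * ‖w‖) ≤ (1 - ‖w‖ ^ 2) * (1 / 2) := by
    apply mul_le_mul_of_nonneg_left _ hw2
    nlinarith [norm_nonneg a, norm_nonneg w]
  have h5 : ‖v‖ ^ 2 ≤ 4 * ‖a‖ ^ 2 := by nlinarith [norm_nonneg v, norm_nonneg a]
  linarith

variable {H : Type*} [NormedAddCommGroup H] [InnerProductSpace ℂ H] [CompleteSpace H]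

open Polynomial in
/-- near-orthogonality of singular vectors of a near-extremal polynomial -/
theorem orth_bound {ι : Type*} (A : H →L[ℂ] H) (s : ι → ℂ) (Ks : ℝ)
    (hsup : ∀ f : ℂ[X], (∀ φ, ‖f.eval (s φ)‖ ≤ 1) → ‖aeval A f‖ ≤ Ks)
    (f : ℂ[X]) (hf : ∀ φ, ‖f.eval (s φ)‖ ≤ 1) (x y : H) (hx : ‖x‖ = 1) (hy : ‖y‖ = 1) (K : ℝ)
    (hK : 0 < K) (hTx : (aeval A f) x = (K : ℂ) • y) (hTy : (star (aeval A f)) y = (K : ℂ) • x)
    (t : ℝ) (ht : 0 < t) (ht2 : t ≤ 1 / 2) :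
    (K ^ 2 - 1) * t * ‖inner ℂ y x‖ ≤ Ks - K + 2 * Ks * t ^ 2 := by
  set T := aeval A f with hT
  have hKs : K ≤ Ks := by
    have h1 : ‖T x‖ ≤ ‖T‖ * ‖x‖ := T.le_opNorm x
    rw [hTx, norm_smul, hy, hx, Complex.norm_real, Real.norm_of_nonneg hK.le] at h1
    have := hsup f hf
    linarith
  set ω : ℂ := inner ℂ y x with hω
  by_cases hω0 : ω = 0
  · rw [hω0, norm_zero, mul_zero]
    have : 0 ≤ 2 * Ks * t ^ 2 := by
      have : 0 ≤ Ks := by linarith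
      positivity
    linarith
  have hw : 0 < ‖ω‖ := norm_pos_iff.mpr hω0
  obtain ⟨a, ha⟩ : ∃ a : ℂ, a = (t : ℂ) * ((starRingEnd ℂ) ω / (‖ω‖ : ℂ)) := ⟨_, rfl⟩
  have han : ‖a‖ = t := by
    rw [ha, norm_mul, norm_div, RCLike.norm_conj, Complex.norm_real, Complex.norm_real,
      Real.norm_of_nonneg ht.le, Real.norm_of_nonneg hw.le, div_self hw.ne', mul_one]
  set r : ℝ := Real.sqrt (1 + 4 * t ^ 2) with hr
  have hr2 : r ^ 2 = 1 + 4 * t ^ 2 := Real.sq_sqrt (by positivity)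
  have hr0 : 0 < r := Real.sqrt_pos.mpr (by positivity)
  have hr1 : r ≤ 1 + 2 * t ^ 2 := by
    rw [hr]
    apply Real.sqrt_le_iff.mpr
    constructor
    · positivity
    · nlinarith [sq_nonneg (t ^ 2)]
  set g : ℂ[X] := f - C a + C ((starRingEnd ℂ) a) * f ^ 2 with hg
  have hgb : ∀ φ, ‖g.eval (s φ)‖ ≤ r := by
    intro φ
    have h1 := mob_bound (f.eval (s φ)) a (hf φ) (by rw [han]; exact ht2)
    rw [han] at h1
    rw [hg]
    simp only [eval_add, eval_sub, eval_C, eval_mul, eval_pow]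
    apply Real.le_sqrt_of_sq_le
    exact h1
  have hgA : ‖aeval A g‖ ≤ Ks * r := by
    have h1 := hsup (C ((r⁻¹ : ℝ) : ℂ) * g) (by
      intro φ
      rw [eval_mul, eval_C, norm_mul, Complex.norm_real, Real.norm_of_nonneg (by positivity),
        inv_mul_le_iff₀ hr0, mul_one]
      exact hgb φ)
    rw [map_mul, aeval_C, Algebra.algebraMap_eq_smul_one, smul_mul_assoc, one_mul, norm_smul,
      Complex.norm_real, Real.norm_of_nonneg (by positivity), inv_mul_le_iff₀ hr0] at h1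
    linarith
  have hgT : aeval A g = T - a • (1 : H →L[ℂ] H) + (starRingEnd ℂ) a • (T * T) := by
    rw [hg, map_add, map_sub, map_mul, aeval_C, aeval_C, map_pow, ← hT,
      Algebra.algebraMap_eq_smul_one, Algebra.algebraMap_eq_smul_one, smul_mul_assoc, one_mul,
      pow_two]
  have hyy : inner ℂ y y = (1 : ℂ) := by rw [inner_self_eq_norm_sq_to_K, hy]; simp
  have hval : inner ℂ y ((aeval A g) x) = ((K + (K ^ 2 - 1) * t * ‖ω‖ : ℝ) : ℂ) := by
    have e1 : inner ℂ y (T (T x)) = (K : ℂ) ^ 2 * (starRingEnd ℂ) ω := by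
      have : inner ℂ y (T (T x)) = inner ℂ ((star T) y) (T x) := by
        rw [ContinuousLinearMap.star_eq_adjoint, adjoint_inner_left]
      rw [this, hTy, hTx, inner_smul_left, inner_smul_right, conj_ofReal, hω, inner_conj_symm]
      ring
    rw [hgT]
    simp only [add_apply, sub_apply, smul_apply, one_apply_eq_self, inner_add_right,
      inner_sub_right, inner_smul_right]
    have e0 : (T * T) x = T (T x) := rfl
    rw [e0, e1, hTx, inner_smul_right, hyy, ← hω]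
    have e2 : a * ω = ((t * ‖ω‖ : ℝ) : ℂ) := by
      rw [ha]
      have : (starRingEnd ℂ) ω * ω = ((‖ω‖ ^ 2 : ℝ) : ℂ) := by
        rw [mul_comm, mul_conj, normSq_eq_norm_sq]
      have h3 : (‖ω‖ : ℂ) ≠ 0 := by exact_mod_cast hw.ne'
      calc (t : ℂ) * ((starRingEnd ℂ) ω / (‖ω‖ : ℂ)) * ω =
            (t : ℂ) * ((starRingEnd ℂ) ω * ω) / (‖ω‖ : ℂ) := by ring
        _ = _ := by rw [this]; push_cast; field_simp
    have e3 : (starRingEnd ℂ) a * ((K : ℂ) ^ 2 * (starRingEnd ℂ) ω) =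
        ((K ^ 2 * (t * ‖ω‖) : ℝ) : ℂ) := by
      have : (starRingEnd ℂ) a * (starRingEnd ℂ) ω = ((t * ‖ω‖ : ℝ) : ℂ) := by
        rw [← map_mul, e2, conj_ofReal]
      calc (starRingEnd ℂ) a * ((K : ℂ) ^ 2 * (starRingEnd ℂ) ω) =
            (K : ℂ) ^ 2 * ((starRingEnd ℂ) a * (starRingEnd ℂ) ω) := by ring
        _ = _ := by rw [this]; push_cast; ring
    rw [e2, e3]
    push_cast
    ring
  have hfin : K + (K ^ 2 - 1) * t * ‖ω‖ ≤ Ks * r := by
    calc K + (K ^ 2 - 1) * t * ‖ω‖ = (inner ℂ y ((aeval A g) x)).re := by rw [hval, ofReal_re]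
      _ ≤ ‖inner ℂ y ((aeval A g) x)‖ := re_le_norm _
      _ ≤ ‖y‖ * ‖(aeval A g) x‖ := norm_inner_le_norm _ _
      _ ≤ 1 * (‖aeval A g‖ * 1) := by
          rw [hy]
          gcongr
          have := (aeval A g).le_opNorm x
          rwa [hx] at this
      _ ≤ Ks * r := by rw [one_mul, mul_one]; exact hgA
  have hKs0 : 0 ≤ Ks := by linarith
  have : Ks * r ≤ Ks * (1 + 2 * t ^ 2) := by gcongr
  linarith

end Run7.h159.QN
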