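import Pool.Agent.Run7.h159.QCore2
import Pool.Agent.Run7.h159.QCurve
import Pool.Agent.Run7.h159.QOrth

set_option autoImplicit false

open Complex ContinuousLinearMap

namespace Run7.h159.QN

open Pool.Agent.W753.CZ

variable {H : Type*} [NormedAddCommGroup H] [InnerProductSpace ℂ H] [CompleteSpace H]
  [FiniteDimensional ℂ H]

theorem norm_attained [Nontrivial H] (T : H →L[ℂ] H) : ∃ x : H, ‖x‖ = 1 ∧ ‖T x‖ = ‖T‖ := by
  have : ProperSpace H := FiniteDimensional.proper ℂ H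
  have hc : IsCompact (Metric.sphere (0 : H) 1) := isCompact_sphere 0 1
  have hne : (Metric.sphere (0 : H) 1).Nonempty := by
    obtain ⟨x, hx⟩ := exists_norm_eq H zero_le_one
    exact ⟨x, by simpa using hx⟩
  obtain ⟨x, hx, hmax⟩ := hc.exists_isMaxOn hne (f := fun x => ‖T x‖) (by fun_prop)
  have hx1 : ‖x‖ = 1 := by simpa using hx
  refine ⟨x, hx1, le_antisymm ?_ ?_⟩
  · have := T.le_opNorm x
    rwa [hx1, mul_one] at this
  · apply T.opNorm_le_bound (norm_nonneg _)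
    intro v
    by_cases hv : v = 0
    · simp [hv]
    have hvn : 0 < ‖v‖ := norm_pos_iff.mpr hv
    have h1 : ((‖v‖⁻¹ : ℝ) : ℂ) • v ∈ Metric.sphere (0 : H) 1 := by
      rw [mem_sphere_zero_iff_norm, norm_smul, Complex.norm_real, norm_inv, norm_norm,
        inv_mul_cancel₀ hvn.ne']
    have h2 := hmax h1
    simp only [Set.mem_ofPred_eq, map_smul, norm_smul, Complex.norm_real, norm_inv, norm_norm] at h2
    rw [inv_mul_le_iff₀ hvn] at h2
    linarith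

theorem star_sing (T : H →L[ℂ] H) (x : H) (hx : ‖x‖ = 1) (hTx : ‖T x‖ = ‖T‖) :
    (star T) (T x) = ((‖T‖ ^ 2 : ℝ) : ℂ) • x := by
  have h1 : ‖(star T) (T x) - ((‖T‖ ^ 2 : ℝ) : ℂ) • x‖ ^ 2 ≤ 0 := by
    rw [norm_sub_sq (𝕜 := ℂ), inner_smul_right]
    have h2 : inner ℂ ((star T) (T x)) x = ((‖T‖ ^ 2 : ℝ) : ℂ) := by
      rw [ContinuousLinearMap.star_eq_adjoint, adjoint_inner_left, inner_self_eq_norm_sq_to_K, hTx]
      norm_cast
    rw [h2, norm_smul, Complex.norm_real, Real.norm_of_nonneg (by positivity), hx, mul_one]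
    have h3 : RCLike.re (((‖T‖ ^ 2 : ℝ) : ℂ) * ((‖T‖ ^ 2 : ℝ) : ℂ)) = ‖T‖ ^ 4 := by
      rw [← Complex.ofReal_mul]
      have : RCLike.re (((‖T‖ ^ 2 * ‖T‖ ^ 2 : ℝ)) : ℂ) = ‖T‖ ^ 2 * ‖T‖ ^ 2 := Complex.ofReal_re _
      rw [this]; ring
    rw [h3]
    have h4 : ‖(star T) (T x)‖ ≤ ‖T‖ ^ 2 := by
      refine ((star T).le_opNorm _).trans ?_
      rw [norm_star, hTx, pow_two]
    have h5 : ‖(star T) (T x)‖ ^ 2 ≤ (‖T‖ ^ 2) ^ 2 := by gcongr
    nlinarith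
  have h2 : ‖(star T) (T x) - ((‖T‖ ^ 2 : ℝ) : ℂ) • x‖ = 0 := by
    have := sq_nonneg ‖(star T) (T x) - ((‖T‖ ^ 2 : ℝ) : ℂ) • x‖
    have h3 : ‖(star T) (T x) - ((‖T‖ ^ 2 : ℝ) : ℂ) • x‖ ^ 2 = 0 := le_antisymm h1 this
    exact pow_eq_zero_iff two_ne_zero |>.mp h3
  exact sub_eq_zero.mp (norm_eq_zero.mp h2)

open Polynomial in
/-- The bound along an envelope curve in the twisted cone. -/
theorem curve_bound_q [Nontrivial H] (A : H →L[ℂ] H) (Hf H1 H2 : ℝ → ℝ)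
    (h1 : ∀ φ, HasDerivAt Hf (H1 φ) φ)
    (h2 : ∀ φ, HasDerivAt H1 (H2 φ) φ) (h2c : Continuous H2) (hp0 : Hf (2 * Real.pi) = Hf 0)
    (hp1 : H1 (2 * Real.pi) = H1 0) (hρ : ∀ φ, 0 ≤ Hf φ + H2 φ) (c : ℝ) (hc : 0 < c)
    (κ m : ℝ) (hκ0 : 0 ≤ κ) (hκ1 : κ < 1) (hm : 0 < m) (hrel : 1 + κ = (1 - κ) * m ^ 2)
    (hcoer : ∀ (φ : ℝ) (u : H), c * ‖u‖ ^ 2 ≤
      (inner ℂ u ((((Hf φ : ℂ) + (H1 φ : ℂ) * I) • (1 : H →L[ℂ] H) - exp (-φ * I) • A) u)).re)
    (hcone : ∀ (φ : ℝ) (u : H),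
      κ * ‖(((Hf φ : ℂ) + (H1 φ : ℂ) * I) • (1 : H →L[ℂ] H) - exp (-φ * I) • A) u‖ * ‖u‖ ≤
      (inner ℂ u ((((Hf φ : ℂ) + (H1 φ : ℂ) * I) • (1 : H →L[ℂ] H) - exp (-φ * I) • A) u)).re)
    (p : ℂ[X]) (M : ℝ) (hM0 : 0 < M) (hM : ∀ φ, ‖p.eval (sg Hf H1 φ)‖ ≤ M) :
    ‖aeval A p‖ ≤ max 1 (2 / m) * M := by
  obtain ⟨K1, hK1⟩ := curve_repr A Hf H1 H2 h1 h2 h2c hp0 hp1 hρ c hc κ hκ0 hcoer hcone
  set s := sg Hf H1 with hs
  set S : Set ℝ := {t | ∃ f : ℂ[X], (∀ φ, ‖f.eval (s φ)‖ ≤ 1) ∧ t = ‖aeval A f‖} with hS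
  have hSb : BddAbove S := by
    refine ⟨K1, ?_⟩
    rintro _ ⟨f, hf, rfl⟩
    obtain ⟨G, -, hT, -, -⟩ := hK1 f hf
    have := hT 1
    rwa [pow_one] at this
  have hSne : S.Nonempty := ⟨_, 0, by simp, rfl⟩
  set Ks := sSup S with hKs
  have hsup : ∀ f : ℂ[X], (∀ φ, ‖f.eval (s φ)‖ ≤ 1) → ‖aeval A f‖ ≤ Ks := fun f hf =>
    le_csSup hSb ⟨f, hf, rfl⟩
  set C0 : ℝ := max 1 (2 / m) with hC0
  have hC1 : 1 ≤ C0 := le_max_left _ _
  have hC2 : 2 / m ≤ C0 := le_max_right _ _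
  have hmain : Ks ≤ C0 := by
    by_contra hcon
    push Not at hcon
    set C' := (C0 + Ks) / 2 with hC'
    have hC'1 : C0 < C' := by rw [hC']; linarith
    have hC'2 : C' < Ks := by rw [hC']; linarith
    have hC'3 : 1 < C' := by linarith
    set Ce : ℝ := (2 * κ + 2 * κ * K1 ^ 2 * (m * K1) + (2 * κ / m) * K1) / (1 - κ) with hCe
    have hK10 : 0 ≤ K1 := by
      obtain ⟨G, -, hT, -, -⟩ := hK1 0 (by simp)
      exact (norm_nonneg _).trans (hT 0)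
    have hCe0 : 0 ≤ Ce := by
      rw [hCe]
      apply div_nonneg _ (by linarith)
      positivity
    have hgap : 0 < m * C' - 2 := by
      have : 2 / m < C' := lt_of_le_of_lt hC2 hC'1
      rw [div_lt_iff₀ hm] at this
      linarith
    have hCs : 0 < C' ^ 2 - 1 := by nlinarith
    set F : ℝ := Ce * ((1 + 2 * Ks) / (C' ^ 2 - 1)) with hF
    have hKs0 : 0 < Ks := by linarith
    have hF0 : 0 ≤ F := by positivity
    obtain ⟨t, ht0, ht1, ht2⟩ : ∃ t : ℝ, 0 < t ∧ t ≤ 1 / 2 ∧ F * t < m * C' - 2 := by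
      refine ⟨min (1 / 2) ((m * C' - 2) / (2 * (F + 1))), ?_, min_le_left _ _, ?_⟩
      · apply lt_min (by norm_num)
        positivity
      · calc F * min (1 / 2) ((m * C' - 2) / (2 * (F + 1))) ≤
              F * ((m * C' - 2) / (2 * (F + 1))) := by gcongr; exact min_le_right _ _
          _ = (m * C' - 2) * (F / (2 * (F + 1))) := by ring
          _ < (m * C' - 2) * 1 := by
              apply mul_lt_mul_of_pos_left _ hgap
              rw [div_lt_one (by positivity)]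
              linarith
          _ = m * C' - 2 := mul_one _
    have hlt : max (Ks - t ^ 2) C' < Ks := max_lt (by nlinarith) hC'2
    obtain ⟨_, ⟨f, hf, rfl⟩, hfK⟩ := exists_lt_of_lt_csSup hSne hlt
    set T := aeval A f with hT
    set K := ‖T‖ with hK
    have hKC : C' < K := lt_of_le_of_lt (le_max_right _ _) hfK
    have hKt : Ks - t ^ 2 < K := lt_of_le_of_lt (le_max_left _ _) hfK
    have hK0 : 0 < K := by linarith
    obtain ⟨x, hx, hTx⟩ := norm_attained T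
    set y : H := ((K⁻¹ : ℝ) : ℂ) • T x with hy
    have hy1 : ‖y‖ = 1 := by
      rw [hy, norm_smul, Complex.norm_real, Real.norm_of_nonneg (by positivity), hTx, ← hK,
        inv_mul_cancel₀ hK0.ne']
    have hTxy : T x = (K : ℂ) • y := by
      rw [hy, smul_smul, ← Complex.ofReal_mul, mul_inv_cancel₀ hK0.ne', Complex.ofReal_one,
        one_smul]
    have hTy : (star T) y = (K : ℂ) • x := by
      rw [hy, map_smul, star_sing T x hx hTx, smul_smul, ← Complex.ofReal_mul]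
      congr 2
      rw [← hK]; field_simp
    obtain ⟨G, hcomm, hTb, hGb, hpos⟩ := hK1 f hf
    have hw := orth_bound A s Ks hsup f hf x y hx hy1 K hK0 hTxy hTy t ht0 ht1
    have hq := qcore T G hcomm K1 hTb hGb κ m hκ0 hκ1 hm hrel x y hx hy1 K hK0 hTxy hTy hpos
    rw [← hCe] at hq
    set w := ‖inner ℂ y x‖ with hwd
    have hw0 : 0 ≤ w := norm_nonneg _
    have hw2 : w ≤ (1 + 2 * Ks) / (C' ^ 2 - 1) * t := by
      have h3 : (C' ^ 2 - 1) * t * w ≤ (1 + 2 * Ks) * t ^ 2 := by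
        have h4 : (C' ^ 2 - 1) * t * w ≤ (K ^ 2 - 1) * t * w := by gcongr
        nlinarith
      have h5 : (C' ^ 2 - 1) * w ≤ (1 + 2 * Ks) * t := by
        have h6 : t * ((C' ^ 2 - 1) * w) ≤ t * ((1 + 2 * Ks) * t) := by nlinarith
        exact le_of_mul_le_mul_left h6 ht0
      rw [div_mul_eq_mul_div, le_div_iff₀ hCs]
      linarith
    have h7 : m * C' < m * K := by gcongr
    have h8 : Ce * w ≤ F * t := by
      rw [hF, mul_assoc]
      gcongr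
    linarith
  have e1 : ‖aeval A (C ((M⁻¹ : ℝ) : ℂ) * p)‖ ≤ Ks := by
    apply hsup
    intro φ
    rw [eval_mul, eval_C, norm_mul, Complex.norm_real, Real.norm_of_nonneg (by positivity),
      inv_mul_le_iff₀ hM0, mul_one]
    exact hM φ
  rw [map_mul, aeval_C, Algebra.algebraMap_eq_smul_one, smul_mul_assoc, one_mul, norm_smul,
    Complex.norm_real, Real.norm_of_nonneg (by positivity), inv_mul_le_iff₀ hM0] at e1
  calc ‖aeval A p‖ ≤ M * Ks := e1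
    _ ≤ M * C0 := by gcongr
    _ = C0 * M := mul_comm _ _

end Run7.h159.QN
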